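import Mathlib

/-!
# An alternating chain of faces of the cross-polytope (Ky Fan), and the octahedral Tucker lemma
for order preserving maps
-/

namespace Pool.Agent.H41.ENL

open Finset

/-- pattern `+ - + - ...` -/
def pat (j : ℕ) : Bool := decide (j % 2 = 0)

theorem pat_succ (j : ℕ) : pat (j + 1) = !pat j := by
  unfold pat
  rcases Nat.mod_two_eq_zero_or_one j with h | h
  · have h2 : (j + 1) % 2 = 1 := by omega
    simp [h, h2]
  · have h2 : (j + 1) % 2 = 0 := by omega
    simp [h, h2]

/-- signed permutations: `x.1 c` is the position of the coordinate `c`, `x.2 c` its sign -/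
abbrev SP (n : ℕ) := Equiv.Perm (Fin n) × (Fin n → Bool)

/-- positive coordinates among the first `i` ones -/
def fP {n : ℕ} (x : SP n) (i : ℕ) : Finset (Fin n) :=
  univ.filter (fun c => (x.1 c).val < i ∧ x.2 c = true)

/-- negative coordinates among the first `i` ones -/
def fN {n : ℕ} (x : SP n) (i : ℕ) : Finset (Fin n) :=
  univ.filter (fun c => (x.1 c).val < i ∧ x.2 c = false)

theorem fP_disj_fN {n : ℕ} (x : SP n) (i : ℕ) : Disjoint (fP x i) (fN x i) := by
  rw [Finset.disjoint_left]
  intro c h1 h2
  have h3 := (Finset.mem_filter.1 h1).2.2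
  have h4 := (Finset.mem_filter.1 h2).2.2
  rw [h3] at h4
  exact absurd h4 (by decide)

theorem f_nonempty {n : ℕ} (x : SP n) (i : ℕ) (hi : 0 < i) (hn : 0 < n) :
    (fP x i ∪ fN x i).Nonempty := by
  refine ⟨x.1.symm ⟨0, hn⟩, ?_⟩
  rw [Finset.mem_union, fP, fN, Finset.mem_filter, Finset.mem_filter]
  simp only [Equiv.apply_symm_apply, Finset.mem_univ, true_and]
  rcases h : x.2 (x.1.symm ⟨0, hn⟩) with _ | _
  · exact Or.inr ⟨hi, rfl⟩
  · exact Or.inl ⟨hi, rfl⟩

theorem fP_mono {n : ℕ} (x : SP n) {i j : ℕ} (h : i ≤ j) : fP x i ⊆ fP x j := by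
  intro c hc
  have h1 := (Finset.mem_filter.1 hc).2
  exact Finset.mem_filter.2 ⟨Finset.mem_univ _, lt_of_lt_of_le h1.1 h, h1.2⟩

theorem fN_mono {n : ℕ} (x : SP n) {i j : ℕ} (h : i ≤ j) : fN x i ⊆ fN x j := by
  intro c hc
  have h1 := (Finset.mem_filter.1 hc).2
  exact Finset.mem_filter.2 ⟨Finset.mem_univ _, lt_of_lt_of_le h1.1 h, h1.2⟩

/-- maximal chains of the faces in the first `m` coordinates, extended canonically -/
def DD (n m : ℕ) : Finset (SP n) :=
  univ.filter (fun x => ∀ c : Fin n, m ≤ c.val → x.1 c = c ∧ x.2 c = true)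

theorem telescope (S : ℕ → ZMod 2) (m : ℕ) :
    ∑ i ∈ range m, (S i + S (i + 1)) = S 0 + S m := by
  induction m with
  | zero => simp [CharTwo.add_self_eq_zero]
  | succ m ih =>
    rw [Finset.sum_range_succ, ih]
    have : S m + S m = 0 := CharTwo.add_self_eq_zero _
    linear_combination this

/-- the Boolean lemma -/
theorem bool_count (l : ℕ → Bool) (m : ℕ) :
    ∑ i ∈ range m, (if (∀ j < m, (j < i → l j = pat j) ∧ (i < j → l j = !pat j)) then (1 : ZMod 2)
      else 0) = (if (∀ j < m, l j = !pat j) then 1 else 0) + (if (∀ j < m, l j = pat j) then 1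
      else 0) := by
  classical
  let S : ℕ → ZMod 2 := fun a => if (∀ j < m, (j < a → l j = pat j) ∧ (a ≤ j → l j = !pat j))
    then 1 else 0
  have h0 : S 0 = (if (∀ j < m, l j = !pat j) then 1 else 0) := by
    simp [S]
  have hm : S m = (if (∀ j < m, l j = pat j) then 1 else 0) := by
    simp only [S]
    congr 1
    apply propext
    constructor
    · intro h j hj
      exact (h j hj).1 hj
    · intro h j hj
      exact ⟨fun _ => h j hj, fun h' => absurd hj (not_lt.2 h')⟩
  rw [← h0, ← hm, ← telescope S m]
  refine Finset.sum_congr rfl fun i hi => ?_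
  have him : i < m := Finset.mem_range.1 hi
  simp only [S]
  by_cases hR : ∀ j < m, (j < i → l j = pat j) ∧ (i < j → l j = !pat j)
  · rw [if_pos hR]
    rcases hli : decide (l i = pat i) with _ | _
    · have hli' : l i = !pat i := by
        have h1 : ¬ l i = pat i := by simpa using hli
        cases h2 : l i <;> cases h3 : pat i <;> simp_all
      rw [if_pos, if_neg, add_zero]
      · intro h
        have h1 := (h i him).1 (Nat.lt_succ_self i)
        rw [hli'] at h1
        cases h3 : pat i <;> simp [h3] at h1
      · intro j hj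
        refine ⟨(hR j hj).1, fun hij => ?_⟩
        rcases hij.lt_or_eq with h | rfl
        · exact (hR j hj).2 h
        · exact hli'
    · have hli' : l i = pat i := by simpa using hli
      rw [if_neg, if_pos, zero_add]
      · intro j hj
        refine ⟨fun hij => ?_, fun hij => (hR j hj).2 hij⟩
        rcases (Nat.lt_succ_iff.1 hij).lt_or_eq with h | rfl
        · exact (hR j hj).1 h
        · exact hli'
      · intro h
        have h1 := (h i him).2 le_rfl
        rw [hli'] at h1
        cases h3 : pat i <;> simp [h3] at h1
  · rw [if_neg hR, if_neg, if_neg, add_zero]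
    · intro h
      apply hR
      intro j hj
      exact ⟨fun hij => (h j hj).1 (Nat.lt_succ_of_lt hij), fun hij => (h j hj).2 hij⟩
    · intro h
      apply hR
      intro j hj
      exact ⟨(h j hj).1, fun hij => (h j hj).2 hij.le⟩

section

variable {n : ℕ} (e : Finset (Fin n) → Finset (Fin n) → Bool)

/-- label of the `j`-th face (with `j + 1` coordinates) -/
def lab (x : SP n) (j : ℕ) : Bool := e (fP x (j + 1)) (fN x (j + 1))

/-- number modulo two of alternating chains -/
def cnt (m : ℕ) : ZMod 2 :=
  ∑ x ∈ DD n m, if (∀ j < m, lab e x j = pat j) then (1 : ZMod 2) else 0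

/-- swap the coordinates at the positions `i` and `i+1` -/
def swp (i : Fin n) (i' : Fin n) (x : SP n) : SP n := (x.1.trans (Equiv.swap i i'), x.2)

theorem swp_faces {i i' : Fin n} (hi : i'.val = i.val + 1) (x : SP n) {j : ℕ} (hj : j ≠ i.val + 1) :
    fP (swp i i' x) j = fP x j ∧ fN (swp i i' x) j = fN x j := by
  have key : ∀ c, ((Equiv.swap i i') (x.1 c)).val < j ↔ (x.1 c).val < j := by
    intro c
    rcases eq_or_ne (x.1 c) i with h | h
    · rw [h, Equiv.swap_apply_left]
      omega
    · rcases eq_or_ne (x.1 c) i' with h' | h'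
      · rw [h', Equiv.swap_apply_right]
        omega
      · rw [Equiv.swap_apply_of_ne_of_ne h h']
  constructor
  · unfold fP swp
    ext c
    simp only [Finset.mem_filter, Finset.mem_univ, true_and, Equiv.trans_apply, key c]
  · unfold fN swp
    ext c
    simp only [Finset.mem_filter, Finset.mem_univ, true_and, Equiv.trans_apply, key c]

theorem cnt_step (he : ∀ A B, Disjoint A B → (A ∪ B).Nonempty → e B A = !e A B) {m : ℕ}
    (hm : m < n) : cnt e (m + 1) = cnt e m := by
  classical
  let M : Fin n := ⟨m, hm⟩
  have hn : 0 < n := lt_of_le_of_lt (Nat.zero_le _) hm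
  let U : Finset (SP n) := (DD n (m + 1)).filter (fun x => x.2 M = true)
  let U' : Finset (SP n) := (DD n (m + 1)).filter (fun x => ¬ x.2 M = true)
  let R : ℕ → SP n → Prop := fun i x => ∀ j < m + 1, (j < i → lab e x j = pat j) ∧
    (i < j → lab e x j = !pat j)
  -- (C)
  have hC : cnt e (m + 1) = ∑ x ∈ U, ((if (∀ j < m + 1, lab e x j = !pat j) then (1 : ZMod 2)
      else 0) + (if (∀ j < m + 1, lab e x j = pat j) then (1 : ZMod 2) else 0)) := by
    rw [Finset.sum_add_distrib]
    unfold cnt
    rw [← Finset.sum_filter_add_sum_filter_not (DD n (m + 1)) (fun x => x.2 M = true), add_comm]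
    congr 1
    let neg : SP n → SP n := fun x => (x.1, fun c => if c.val < m + 1 then !x.2 c else x.2 c)
    have hneg : ∀ x, neg (neg x) = x := by
      intro x
      refine Prod.ext rfl ?_
      funext c
      simp only [neg]
      by_cases hc : c.val < m + 1
      · simp only [if_pos hc, Bool.not_not]
      · simp only [if_neg hc]
    have hD : ∀ x ∈ DD n (m + 1), neg x ∈ DD n (m + 1) := by
      intro x hx
      refine Finset.mem_filter.2 ⟨Finset.mem_univ _, fun c hc => ?_⟩
      have h1 := (Finset.mem_filter.1 hx).2 c hc
      refine ⟨h1.1, ?_⟩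
      simp only [neg]
      rw [if_neg (not_lt.2 hc)]
      exact h1.2
    have hlab : ∀ x ∈ DD n (m + 1), ∀ j < m + 1, lab e (neg x) j = !lab e x j := by
      intro x hx j hj
      have hsmall : ∀ c, (x.1 c).val < j + 1 → c.val < m + 1 := by
        intro c hc
        by_contra h
        push Not at h
        have h1 := ((Finset.mem_filter.1 hx).2 c h).1
        rw [h1] at hc
        omega
      have e1 : fP (neg x) (j + 1) = fN x (j + 1) := by
        ext c
        simp only [fP, fN, neg, Finset.mem_filter, Finset.mem_univ, true_and]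
        constructor
        · rintro ⟨h1, h2⟩
          rw [if_pos (hsmall c h1)] at h2
          exact ⟨h1, by simpa using h2⟩
        · rintro ⟨h1, h2⟩
          refine ⟨h1, ?_⟩
          rw [if_pos (hsmall c h1), h2]
          rfl
      have e2 : fN (neg x) (j + 1) = fP x (j + 1) := by
        ext c
        simp only [fP, fN, neg, Finset.mem_filter, Finset.mem_univ, true_and]
        constructor
        · rintro ⟨h1, h2⟩
          rw [if_pos (hsmall c h1)] at h2
          exact ⟨h1, by simpa using h2⟩
        · rintro ⟨h1, h2⟩
          refine ⟨h1, ?_⟩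
          rw [if_pos (hsmall c h1), h2]
          rfl
      unfold lab
      rw [e1, e2]
      exact he _ _ (fP_disj_fN x _) (f_nonempty x _ (Nat.succ_pos _) hn)
    refine Finset.sum_nbij' neg neg ?_ ?_ (fun x _ => hneg x) (fun x _ => hneg x) ?_
    · intro x hx
      have h1 := Finset.mem_filter.1 hx
      refine Finset.mem_filter.2 ⟨hD x h1.1, ?_⟩
      have h2 : x.2 M = false := by simpa using h1.2
      simp only [neg]
      rw [if_pos (Nat.lt_succ_self m), h2]
      rfl
    · intro x hx
      have h1 := Finset.mem_filter.1 hx
      refine Finset.mem_filter.2 ⟨hD x h1.1, ?_⟩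
      simp only [neg]
      rw [if_pos (Nat.lt_succ_self m), h1.2]
      decide
    · intro x hx
      have h1 := (Finset.mem_filter.1 hx).1
      congr 1
      apply propext
      constructor
      · intro h j hj
        rw [hlab x h1 j hj, h j hj]
      · intro h j hj
        have h2 := h j hj
        rw [hlab x h1 j hj] at h2
        cases h3 : lab e x j <;> cases h4 : pat j <;> simp_all
  -- pointwise count
  have hpt : ∀ x : SP n, ((if (∀ j < m + 1, lab e x j = !pat j) then (1 : ZMod 2)
      else 0) + (if (∀ j < m + 1, lab e x j = pat j) then (1 : ZMod 2) else 0)) =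
      ∑ i ∈ range (m + 1), if R i x then (1 : ZMod 2) else 0 :=
    fun x => (bool_count (lab e x) (m + 1)).symm
  rw [hC, Finset.sum_congr rfl fun x _ => hpt x, Finset.sum_comm, Finset.sum_range_succ]
  -- inner indices cancel
  have hinner : ∑ i ∈ range m, ∑ x ∈ U, (if R i x then (1 : ZMod 2) else 0) = 0 := by
    refine Finset.sum_eq_zero fun i hi => ?_
    have him : i < m := Finset.mem_range.1 hi
    let a : Fin n := ⟨i, by omega⟩
    let b : Fin n := ⟨i + 1, by omega⟩
    have hab : b.val = a.val + 1 := rfl
    have hne : a ≠ b := by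
      intro h
      have := congrArg Fin.val h
      simp only [a, b] at this
      omega
    have hRR : ∀ x, R i (swp a b x) ↔ R i x := by
      intro x
      have hl : ∀ j, j ≠ i → lab e (swp a b x) j = lab e x j := by
        intro j hj
        have h1 := swp_faces hab x (j := j + 1) (by simp only [a]; omega)
        unfold lab
        rw [h1.1, h1.2]
      simp only [R]
      refine forall₂_congr fun j hj => ?_
      constructor
      · rintro ⟨h1, h2⟩
        refine ⟨fun h => ?_, fun h => ?_⟩
        · rw [← hl j h.ne]; exact h1 h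
        · rw [← hl j h.ne']; exact h2 h
      · rintro ⟨h1, h2⟩
        refine ⟨fun h => ?_, fun h => ?_⟩
        · rw [hl j h.ne]; exact h1 h
        · rw [hl j h.ne']; exact h2 h
    refine Finset.sum_involution (fun x _ => swp a b x) ?_ ?_ ?_ ?_
    · intro x _
      have : (if R i (swp a b x) then (1 : ZMod 2) else 0) = if R i x then 1 else 0 := by
        simp only [hRR x]
      rw [this]
      exact CharTwo.add_self_eq_zero _
    · intro x _ _ heq
      have h1 := congrArg Prod.fst heq
      have h2 := congrFun (congrArg DFunLike.coe h1) (x.1.symm a)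
      simp only [swp, Equiv.trans_apply, Equiv.apply_symm_apply, Equiv.swap_apply_left] at h2
      exact hne h2.symm
    · intro x hx
      have h1 := Finset.mem_filter.1 hx
      refine Finset.mem_filter.2 ⟨Finset.mem_filter.2 ⟨Finset.mem_univ _, fun c hc => ?_⟩, h1.2⟩
      have h2 := (Finset.mem_filter.1 h1.1).2 c hc
      refine ⟨?_, h2.2⟩
      simp only [swp, Equiv.trans_apply, h2.1]
      refine Equiv.swap_apply_of_ne_of_ne ?_ ?_
      · intro h
        have := congrArg Fin.val h
        simp only [a] at this
        omega
      · intro h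
        have := congrArg Fin.val h
        simp only [b] at this
        omega
    · intro x _
      refine Prod.ext ?_ rfl
      ext c
      simp [swp]
  rw [hinner, zero_add]
  -- the last index
  rw [← Finset.sum_filter_add_sum_filter_not U (fun x => x.1 M = M)]
  have hflip : ∑ x ∈ U.filter (fun x => ¬ x.1 M = M), (if R m x then (1 : ZMod 2) else 0) = 0 := by
    let fl : SP n → SP n := fun x => (x.1, Function.update x.2 (x.1.symm M) (!x.2 (x.1.symm M)))
    have hRR : ∀ x, R m (fl x) ↔ R m x := by
      intro x
      have hl : ∀ j, j < m → lab e (fl x) j = lab e x j := by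
        intro j hj
        have hne : ∀ c, (x.1 c).val < j + 1 → c ≠ x.1.symm M := by
          rintro c hc rfl
          rw [Equiv.apply_symm_apply] at hc
          simp only [M] at hc
          omega
        have e1 : fP (fl x) (j + 1) = fP x (j + 1) := by
          unfold fP
          ext c
          simp only [Finset.mem_filter, Finset.mem_univ, true_and, fl]
          refine and_congr_right fun h => ?_
          rw [Function.update_of_ne (hne c h)]
        have e2 : fN (fl x) (j + 1) = fN x (j + 1) := by
          unfold fN
          ext c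
          simp only [Finset.mem_filter, Finset.mem_univ, true_and, fl]
          refine and_congr_right fun h => ?_
          rw [Function.update_of_ne (hne c h)]
        unfold lab
        rw [e1, e2]
      simp only [R]
      refine forall₂_congr fun j hj => ?_
      constructor
      · rintro ⟨h1, h2⟩
        refine ⟨fun h => ?_, fun h => absurd h (by omega)⟩
        rw [← hl j h]; exact h1 h
      · rintro ⟨h1, h2⟩
        refine ⟨fun h => ?_, fun h => absurd h (by omega)⟩
        rw [hl j h]; exact h1 h
    refine Finset.sum_involution (fun x _ => fl x) ?_ ?_ ?_ ?_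
    · intro x _
      have : (if R m (fl x) then (1 : ZMod 2) else 0) = if R m x then 1 else 0 := by
        simp only [hRR x]
      rw [this]
      exact CharTwo.add_self_eq_zero _
    · intro x _ _ heq
      have h1 := congrFun (congrArg Prod.snd heq) (x.1.symm M)
      simp only [fl, Function.update_self] at h1
      cases h2 : x.2 (x.1.symm M) <;> simp [h2] at h1
    · intro x hx
      have h0 := Finset.mem_filter.1 hx
      have h1 := Finset.mem_filter.1 h0.1
      have hne : ∀ c : Fin n, m ≤ c.val → c ≠ x.1.symm M := by
        rintro c hc rfl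
        rcases hc.lt_or_eq with h | h
        · have h2 := ((Finset.mem_filter.1 h1.1).2 _ h).1
          rw [Equiv.apply_symm_apply] at h2
          rw [← h2] at h
          simp only [M] at h
          omega
        · have h2 : x.1.symm M = M := Fin.ext h.symm
          apply h0.2
          rw [Equiv.symm_apply_eq] at h2
          exact h2.symm
      refine Finset.mem_filter.2 ⟨Finset.mem_filter.2 ⟨Finset.mem_filter.2 ⟨Finset.mem_univ _,
        fun c hc => ?_⟩, ?_⟩, h0.2⟩
      · have h2 := (Finset.mem_filter.1 h1.1).2 c hc
        refine ⟨h2.1, ?_⟩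
        simp only [fl]
        rw [Function.update_of_ne (hne c (by omega))]
        exact h2.2
      · simp only [fl]
        rw [Function.update_of_ne (hne M le_rfl)]
        exact h1.2
    · intro x _
      refine Prod.ext rfl ?_
      simp only [fl, Function.update_self, Bool.not_not, Function.update_idem,
        Function.update_eq_self]
  rw [hflip, add_zero]
  have hUD : U.filter (fun x => x.1 M = M) = DD n m := by
    ext x
    constructor
    · intro hx
      have h0 := Finset.mem_filter.1 hx
      have h1 := Finset.mem_filter.1 h0.1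
      refine Finset.mem_filter.2 ⟨Finset.mem_univ _, fun c hc => ?_⟩
      rcases hc.lt_or_eq with h | h
      · exact (Finset.mem_filter.1 h1.1).2 c h
      · have h2 : c = M := Fin.ext h.symm
        rw [h2]
        exact ⟨h0.2, h1.2⟩
    · intro hx
      have h0 := (Finset.mem_filter.1 hx).2
      refine Finset.mem_filter.2 ⟨Finset.mem_filter.2 ⟨Finset.mem_filter.2 ⟨Finset.mem_univ _,
        fun c hc => h0 c (by omega)⟩, (h0 M le_rfl).2⟩, (h0 M le_rfl).1⟩
  rw [hUD]
  unfold cnt
  refine Finset.sum_congr rfl fun x _ => ?_
  congr 1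
  apply propext
  simp only [R]
  constructor
  · intro h j hj
    exact (h j (by omega)).1 hj
  · intro h j hj
    exact ⟨fun h1 => h j h1, fun h1 => absurd h1 (by omega)⟩

theorem cnt_zero : cnt e 0 = 1 := by
  classical
  have h1 : DD n 0 = {((Equiv.refl (Fin n), fun _ => true) : SP n)} := by
    ext x
    simp only [DD, Finset.mem_filter, Finset.mem_univ, true_and, Nat.zero_le, forall_true_left,
      Finset.mem_singleton]
    constructor
    · intro h
      refine Prod.ext ?_ ?_
      · ext c
        rw [(h c).1]
        rfl
      · funext c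
        exact (h c).2
    · rintro rfl c
      exact ⟨rfl, rfl⟩
  unfold cnt
  rw [h1, Finset.sum_singleton, if_pos]
  intro j hj
  omega

/-- every antipodal sign function has an alternating maximal chain of faces -/
theorem exists_alternating (he : ∀ A B, Disjoint A B → (A ∪ B).Nonempty → e B A = !e A B) :
    ∃ x : SP n, ∀ j < n, lab e x j = pat j := by
  classical
  have h1 : ∀ m ≤ n, cnt e m = 1 := by
    intro m hm
    induction m with
    | zero => exact cnt_zero e
    | succ m ih => rw [cnt_step e he (by omega), ih (by omega)]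
  have h2 := h1 n le_rfl
  by_contra hcon
  push Not at hcon
  have h3 : cnt e n = 0 := by
    unfold cnt
    refine Finset.sum_eq_zero fun x _ => ?_
    rw [if_neg]
    intro h
    obtain ⟨j, hj, h4⟩ := hcon x
    exact h4 (h j hj)
  rw [h2] at h3
  exact absurd h3 (by decide)

end

/-- octahedral Tucker lemma for order preserving maps -/
theorem tucker {n d : ℕ} (f : Finset (Fin n) → Finset (Fin n) → ℤ)
    (hf : ∀ A B, Disjoint A B → (A ∪ B).Nonempty →
      f B A = -f A B ∧ 1 ≤ |f A B| ∧ |f A B| ≤ d)
    (hmono : ∀ A B A' B', Disjoint A B → (A ∪ B).Nonempty → Disjoint A' B' → A ⊆ A' → B ⊆ B' →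
      f A B = f A' B' ∨ |f A B| < |f A' B'|) : n ≤ d := by
  rcases Nat.eq_zero_or_pos n with rfl | hn
  · exact Nat.zero_le _
  obtain ⟨x, hx⟩ := exists_alternating (fun A B => decide (0 < f A B)) (by
    intro A B h1 h2
    obtain ⟨h3, h4, -⟩ := hf A B h1 h2
    rw [h3]
    rcases lt_trichotomy (f A B) 0 with h | h | h
    · simp [h, h.not_gt]
    · rw [h] at h4; simp at h4
    · simp [h, h.not_gt])
  have hdis := fun i => fP_disj_fN x i
  have hne := fun i (hi : 0 < i) => f_nonempty x i hi hn
  have key : ∀ j < n, (j + 1 : ℤ) ≤ |f (fP x (j + 1)) (fN x (j + 1))| := by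
    intro j hj
    induction j with
    | zero =>
      simpa using (hf _ _ (hdis 1) (hne 1 one_pos)).2.1
    | succ j ih =>
      have h1 := ih (by omega)
      have h2 := hx j (by omega)
      have h3 := hx (j + 1) hj
      rw [pat_succ, ← h2] at h3
      rcases hmono _ _ _ _ (hdis (j + 1)) (hne (j + 1) (Nat.succ_pos _)) (hdis (j + 1 + 1))
        (fP_mono x (Nat.le_succ (j + 1))) (fN_mono x (Nat.le_succ (j + 1))) with h4 | h4
      · exfalso
        simp only [lab] at h3
        rw [← h4] at h3
        cases h5 : decide (0 < f (fP x (j + 1)) (fN x (j + 1))) <;> simp [h5] at h3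
      · push_cast
        omega
  have h1 := key (n - 1) (by omega)
  have h2 := (hf _ _ (hdis (n - 1 + 1)) (hne (n - 1 + 1) (Nat.succ_pos _))).2.2
  have h3 : ((n - 1 : ℕ) : ℤ) + 1 = n := by omega
  rw [h3] at h1
  exact_mod_cast h1.trans h2

end Pool.Agent.H41.ENL
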