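import Pool.Agent.H41.ENL.Core

/-!
# The topological lower bound: `δ(G) ≥ c t / log χ(G)`
-/

namespace Pool.Agent.H41.ENL

open Finset

/-- `(A, B)` is an element of the poset `Hom(K₂, G)` -/
def IsPair {V : Type*} (G : SimpleGraph V) (A B : Set V) : Prop :=
  A.Nonempty ∧ B.Nonempty ∧ ∀ a ∈ A, ∀ b ∈ B, G.Adj a b

/-- there is an order preserving `ℤ/2`-map from `Hom(K₂, G)` to the poset `{±1, ..., ±d}`, in
which `a < b` if and only if `|a| < |b|` -/
def CrossMap {V : Type*} (G : SimpleGraph V) (d : ℕ) : Prop :=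
  ∃ f : Set V → Set V → ℤ,
    (∀ A B, IsPair G A B → f B A = -f A B ∧ 1 ≤ |f A B| ∧ |f A B| ≤ d) ∧
    ∀ A B A' B', IsPair G A B → IsPair G A' B' → A ⊆ A' → B ⊆ B' →
      f A B = f A' B' ∨ |f A B| < |f A' B'|

/-- level of a pair of disjoint sets -/
def lev (a b : ℕ) : ℕ := 2 * min a b + if a = b then 0 else 1

theorem lev_comm (a b : ℕ) : lev b a = lev a b := by
  unfold lev
  rw [min_comm b a]
  by_cases h : a = b
  · rw [if_pos h, if_pos h.symm]
  · rw [if_neg h, if_neg (fun h' => h h'.symm)]

/-- sign of a pair of sets -/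
noncomputable def sg {N : ℕ} (P Q : Finset (Fin N)) : ℤ :=
  if Q.card < P.card then 1 else if P.card < Q.card then -1 else
    if Fintype.equivFin _ Q < Fintype.equivFin _ P then 1 else -1

theorem sg_comm {N : ℕ} {P Q : Finset (Fin N)} (h : P ≠ Q) : sg Q P = -sg P Q := by
  unfold sg
  have h1 : Fintype.equivFin (Finset (Fin N)) P ≠ Fintype.equivFin (Finset (Fin N)) Q :=
    fun h' => h ((Fintype.equivFin _).injective h')
  rcases lt_trichotomy P.card Q.card with h2 | h2 | h2
  · rw [if_pos h2, if_neg h2.asymm, if_pos h2, neg_neg]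
  · have e1 : ¬ P.card < Q.card := by omega
    have e2 : ¬ Q.card < P.card := by omega
    rcases lt_or_gt_of_ne h1 with h3 | h3
    · simp only [if_neg e1, if_neg e2, if_pos h3, if_neg h3.asymm, neg_neg]
    · simp only [if_neg e1, if_neg e2, if_pos h3, if_neg h3.asymm]
  · rw [if_neg h2.asymm, if_pos h2, if_pos h2]

theorem sg_abs {N : ℕ} (P Q : Finset (Fin N)) : |sg P Q| = 1 := by
  unfold sg
  split_ifs <;> simp

theorem lev_sg_mono {N : ℕ} {P Q P' Q' : Finset (Fin N)} (hP : P ⊆ P') (hQ : Q ⊆ Q') :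
    (lev P.card Q.card = lev P'.card Q'.card ∧ sg P Q = sg P' Q') ∨
      lev P.card Q.card < lev P'.card Q'.card := by
  have h1 := Finset.card_le_card hP
  have h2 := Finset.card_le_card hQ
  rcases lt_trichotomy P.card Q.card with h | h | h
  · rcases lt_trichotomy P'.card Q'.card with h' | h' | h'
    · rcases Nat.lt_or_ge P.card P'.card with h3 | h3
      · right
        unfold lev
        rw [if_neg (by omega), if_neg (by omega)]
        omega
      · left
        constructor
        · unfold lev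
          rw [if_neg (by omega), if_neg (by omega)]
          omega
        · unfold sg
          rw [if_neg (by omega), if_pos h, if_neg (by omega), if_pos h']
    · right
      unfold lev
      rw [if_neg (by omega), if_pos h']
      omega
    · right
      unfold lev
      rw [if_neg (by omega), if_neg (by omega)]
      omega
  · rcases Nat.lt_or_ge (P.card + Q.card) (P'.card + Q'.card) with h3 | h3
    · right
      unfold lev
      rw [if_pos h]
      by_cases h' : P'.card = Q'.card
      · rw [if_pos h']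
        omega
      · rw [if_neg h']
        omega
    · left
      have e1 : P = P' := Finset.eq_of_subset_of_card_le hP (by omega)
      have e2 : Q = Q' := Finset.eq_of_subset_of_card_le hQ (by omega)
      rw [e1, e2]
      exact ⟨rfl, rfl⟩
  · rcases lt_trichotomy P'.card Q'.card with h' | h' | h'
    · right
      unfold lev
      rw [if_neg (by omega), if_neg (by omega)]
      omega
    · right
      unfold lev
      rw [if_neg (by omega), if_pos h']
      omega
    · rcases Nat.lt_or_ge Q.card Q'.card with h3 | h3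
      · right
        unfold lev
        rw [if_neg (by omega), if_neg (by omega)]
        omega
      · left
        constructor
        · unfold lev
          rw [if_neg (by omega), if_neg (by omega)]
          omega
        · unfold sg
          rw [if_pos h, if_pos h']

theorem topo {V : Type*} (G : SimpleGraph V) {N m k : ℕ} (lam : V → Fin N)
    (hlam : ∀ u v, G.Adj u v → lam u ≠ lam v) (hm : 0 < m) (hL : N ^ 4 * 7 ^ m < 8 ^ m)
    (hX : ¬ CrossMap G (k * (8 * m - 1) - 1)) : DiGt G k := by
  classical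
  by_contra hnot
  obtain ⟨R, hR1, hR2⟩ := exists_tour_fin N m hm hL
  have horient : ∃ c : V → Fin k, ∀ x, ¬ Relation.TransGen
      (fun u v => (G.Adj u v ∧ R (lam u) (lam v) = true) ∧ c u = c v) x x := by
    by_contra hcon
    push Not at hcon
    refine hnot ⟨fun u v => G.Adj u v ∧ R (lam u) (lam v) = true, fun u v h1 => h1.1, ?_, hcon⟩
    intro u v huv
    have h1 := hR1 _ _ (hlam u v huv)
    rcases h2 : R (lam v) (lam u) with _ | _
    · rw [h2] at h1
      left
      refine ⟨⟨huv, h1⟩, fun h3 => ?_⟩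
      have h4 := h3.2
      rw [h2] at h4
      exact absurd h4 (by decide)
    · rw [h2] at h1
      right
      refine ⟨⟨huv.symm, h2⟩, fun h3 => ?_⟩
      have h4 := h3.2
      rw [h1] at h4
      exact absurd h4 (by decide)
  obtain ⟨c, hc⟩ := horient
  -- classes present, the last one
  let S : Set V → Set V → Finset (Fin k) := fun A B => univ.filter (fun i => ∃ v ∈ A ∪ B, c v = i)
  let al : Set V → Set V → ℕ := fun A B => (S A B).sup (fun i => i.val)
  let P : ℕ → Set V → Finset (Fin N) := fun i A =>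
    univ.filter (fun j => ∃ v ∈ A, (c v).val = i ∧ lam v = j)
  have hSc : ∀ A B, S B A = S A B := by
    intro A B
    simp only [S, Set.union_comm]
  have halc : ∀ A B, al B A = al A B := by
    intro A B
    simp only [al, hSc A B]
  have hal_mono : ∀ A B A' B', A ⊆ A' → B ⊆ B' → al A B ≤ al A' B' := by
    intro A B A' B' hA hB
    refine Finset.sup_mono ?_
    intro i hi
    obtain ⟨v, hv, hvi⟩ := (Finset.mem_filter.1 hi).2
    refine Finset.mem_filter.2 ⟨Finset.mem_univ _, v, ?_, hvi⟩
    exact Set.union_subset_union hA hB hv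
  have hPmono : ∀ i A A', A ⊆ A' → P i A ⊆ P i A' := by
    intro i A A' hA j hj
    obtain ⟨v, hv, h1, h2⟩ := (Finset.mem_filter.1 hj).2
    exact Finset.mem_filter.2 ⟨Finset.mem_univ _, v, hA hv, h1, h2⟩
  -- facts about pairs
  have hdis : ∀ A B, IsPair G A B → ∀ i, Disjoint (P i A) (P i B) := by
    intro A B hAB i
    rw [Finset.disjoint_left]
    intro j h1 h2
    obtain ⟨u, hu, -, hu2⟩ := (Finset.mem_filter.1 h1).2
    obtain ⟨v, hv, -, hv2⟩ := (Finset.mem_filter.1 h2).2
    exact hlam u v (hAB.2.2 u hu v hv) (hu2.trans hv2.symm)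
  have hpoor : ∀ A B, IsPair G A B → ∀ i, min (P i A).card (P i B).card < 4 * m := by
    intro A B hAB i
    by_contra h2
    push Not at h2
    obtain ⟨a, ha, a', ha', b, hb, b', hb', hcyc⟩ := hR2 _ _ (hdis A B hAB i)
      (h2.trans (min_le_left _ _)) (h2.trans (min_le_right _ _))
    obtain ⟨u, hu, hu1, rfl⟩ := (Finset.mem_filter.1 ha).2
    obtain ⟨u', hu', hu1', rfl⟩ := (Finset.mem_filter.1 ha').2
    obtain ⟨v, hv, hv1, rfl⟩ := (Finset.mem_filter.1 hb).2
    obtain ⟨v', hv', hv1', rfl⟩ := (Finset.mem_filter.1 hb').2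
    refine hc u ?_
    refine Relation.TransGen.trans (Relation.TransGen.trans (Relation.TransGen.trans
      (b := v) (Relation.TransGen.single ?_) (c := u') (Relation.TransGen.single ?_))
      (c := v') (Relation.TransGen.single ?_)) (Relation.TransGen.single ?_)
    · exact ⟨⟨hAB.2.2 u hu v hv, hcyc.1⟩, Fin.ext (hu1.trans hv1.symm)⟩
    · exact ⟨⟨(hAB.2.2 u' hu' v hv).symm, hcyc.2.1⟩, Fin.ext (hv1.trans hu1'.symm)⟩
    · exact ⟨⟨hAB.2.2 u' hu' v' hv', hcyc.2.2.1⟩, Fin.ext (hu1'.trans hv1'.symm)⟩
    · exact ⟨⟨(hAB.2.2 u hu v' hv').symm, hcyc.2.2.2⟩, Fin.ext (hv1'.trans hu1.symm)⟩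
  have hatt : ∀ A B, IsPair G A B → ∃ v ∈ A ∪ B, (c v).val = al A B := by
    intro A B hAB
    obtain ⟨a, ha⟩ := hAB.1
    have hne : (S A B).Nonempty :=
      ⟨c a, Finset.mem_filter.2 ⟨Finset.mem_univ _, a, Or.inl ha, rfl⟩⟩
    obtain ⟨i, hi, h1⟩ := Finset.exists_mem_eq_sup (S A B) hne (fun i => i.val)
    obtain ⟨v, hv, rfl⟩ := (Finset.mem_filter.1 hi).2
    exact ⟨v, hv, h1.symm⟩
  have hle : ∀ A B v, v ∈ A ∪ B → (c v).val ≤ al A B := by
    intro A B v hv
    exact Finset.le_sup (f := fun i : Fin k => i.val)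
      (Finset.mem_filter.2 ⟨Finset.mem_univ _, v, hv, rfl⟩)
  have hne : ∀ A B, IsPair G A B → 1 ≤ (P (al A B) A).card + (P (al A B) B).card := by
    intro A B hAB
    obtain ⟨v, hv, h1⟩ := hatt A B hAB
    rcases hv with hv | hv
    · have : 0 < (P (al A B) A).card := Finset.card_pos.2
        ⟨lam v, Finset.mem_filter.2 ⟨Finset.mem_univ _, v, hv, h1, rfl⟩⟩
      omega
    · have : 0 < (P (al A B) B).card := Finset.card_pos.2
        ⟨lam v, Finset.mem_filter.2 ⟨Finset.mem_univ _, v, hv, h1, rfl⟩⟩
      omega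
  have hne0 : ∀ A B, IsPair G A B → al A B = 0 →
      1 ≤ (P (al A B) A).card ∧ 1 ≤ (P (al A B) B).card := by
    intro A B hAB h0
    obtain ⟨a, ha⟩ := hAB.1
    obtain ⟨b, hb⟩ := hAB.2.1
    have h1 := hle A B a (Or.inl ha)
    have h2 := hle A B b (Or.inr hb)
    constructor
    · exact Finset.card_pos.2
        ⟨lam a, Finset.mem_filter.2 ⟨Finset.mem_univ _, a, ha, by omega, rfl⟩⟩
    · exact Finset.card_pos.2
        ⟨lam b, Finset.mem_filter.2 ⟨Finset.mem_univ _, b, hb, by omega, rfl⟩⟩
  -- the absolute value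
  let ab : Set V → Set V → ℕ := fun A B =>
    (8 * m - 1) * al A B + lev (P (al A B) A).card (P (al A B) B).card - 1
  have hlev : ∀ A B, IsPair G A B → 1 ≤ lev (P (al A B) A).card (P (al A B) B).card ∧
      lev (P (al A B) A).card (P (al A B) B).card ≤ 8 * m - 1 ∧
      (al A B = 0 → 2 ≤ lev (P (al A B) A).card (P (al A B) B).card) := by
    intro A B hAB
    have h1 := hne A B hAB
    have h2 := hpoor A B hAB (al A B)
    have h3 := hne0 A B hAB
    refine ⟨?_, ?_, ?_⟩
    · unfold lev
      split_ifs <;> omega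
    · unfold lev
      split_ifs <;> omega
    · intro h0
      have := h3 h0
      unfold lev
      split_ifs <;> omega
  refine hX ⟨fun A B => sg (P (al A B) A) (P (al A B) B) * (ab A B : ℤ), ?_, ?_⟩
  · intro A B hAB
    have hPne : P (al A B) A ≠ P (al A B) B := by
      intro heq
      have h1 := hdis A B hAB (al A B)
      rw [heq, disjoint_self] at h1
      have h2 := hne A B hAB
      rw [heq, h1] at h2
      simp at h2
    have hab : ab B A = ab A B := by
      simp only [ab, halc A B]
      rw [lev_comm]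
    obtain ⟨h1, h2, h3⟩ := hlev A B hAB
    obtain ⟨v, hv, h4⟩ := hatt A B hAB
    have hk : al A B < k := by
      rw [← h4]
      exact (c v).2
    refine ⟨?_, ?_, ?_⟩
    · simp only [hab, halc A B]
      rw [sg_comm hPne]
      ring
    · rw [abs_mul, sg_abs, one_mul, Nat.abs_cast]
      have h5 : 1 ≤ ab A B := by
        simp only [ab]
        rcases Nat.eq_zero_or_pos (al A B) with h6 | h6
        · have := h3 h6
          omega
        · have h7 : 8 * m - 1 ≤ (8 * m - 1) * al A B := Nat.le_mul_of_pos_right _ h6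
          omega
      exact_mod_cast h5
    · rw [abs_mul, sg_abs, one_mul, Nat.abs_cast]
      have h5 : ab A B ≤ k * (8 * m - 1) - 1 := by
        simp only [ab]
        have h6 : (8 * m - 1) * al A B + (8 * m - 1) ≤ k * (8 * m - 1) := by
          calc (8 * m - 1) * al A B + (8 * m - 1) = (al A B + 1) * (8 * m - 1) := by ring
            _ ≤ k * (8 * m - 1) := Nat.mul_le_mul_right _ hk
        omega
      exact_mod_cast h5
  · intro A B A' B' hAB hAB' hA hB
    obtain ⟨h1, h2, h3⟩ := hlev A B hAB
    obtain ⟨h1', h2', h3'⟩ := hlev A' B' hAB'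
    rcases (hal_mono A B A' B' hA hB).lt_or_eq with h4 | h4
    · right
      rw [abs_mul, sg_abs, one_mul, Nat.abs_cast, abs_mul, sg_abs, one_mul, Nat.abs_cast]
      have h5 : ab A B < ab A' B' := by
        simp only [ab]
        have h6 : (8 * m - 1) * al A B + (8 * m - 1) ≤ (8 * m - 1) * al A' B' := by
          calc (8 * m - 1) * al A B + (8 * m - 1) = (8 * m - 1) * (al A B + 1) := by ring
            _ ≤ _ := Nat.mul_le_mul_left _ h4
        omega
      exact_mod_cast h5
    · rcases lev_sg_mono (hPmono (al A B) A A' hA) (hPmono (al A B) B B' hB) with h5 | h5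
      · left
        simp only [ab]
        rw [← h4, h5.1, h5.2]
      · right
        rw [abs_mul, sg_abs, one_mul, Nat.abs_cast, abs_mul, sg_abs, one_mul, Nat.abs_cast]
        have h6 : ab A B < ab A' B' := by
          simp only [ab]
          rw [← h4]
          omega
        exact_mod_cast h6

/-- `δ(G) > k` if `G` is `2^ℓ`-colourable and there is no order preserving `ℤ/2`-map from
`Hom(K₂, G)` to `{±1, ..., ±(k(192ℓ-1)-1)}` -/
theorem topo' {V : Type*} (G : SimpleGraph V) {ℓ k : ℕ} (hℓ : 0 < ℓ) (hcol : G.Colorable (2 ^ ℓ))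
    (hX : ¬ CrossMap G (k * (192 * ℓ - 1) - 1)) : DiGt G k := by
  obtain ⟨C⟩ := hcol
  refine topo G (m := 24 * ℓ) C (fun u v huv => C.valid huv) (by omega) ?_ ?_
  · calc (2 ^ ℓ) ^ 4 * 7 ^ (24 * ℓ) = (16 * 7 ^ 24) ^ ℓ := by
          rw [mul_pow, ← pow_mul, ← pow_mul, mul_comm ℓ 4, pow_mul]
          norm_num
      _ < (8 ^ 24) ^ ℓ := Nat.pow_lt_pow_left (by norm_num) hℓ.ne'
      _ = _ := (pow_mul _ _ _).symm
  · have e : 8 * (24 * ℓ) = 192 * ℓ := by ring
    rw [e]
    exact hX

end Pool.Agent.H41.ENL
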