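import Pool.Agent.H41.ENL.Tucker
import Pool.Agent.H41.ENL.Topo

/-!
# Alternation numbers, general Kneser graphs and Schrijver graphs
-/

namespace Pool.Agent.H41.ENL

open Finset

/-- `A, B` contain an increasing alternating sequence of length `m` which starts in `A` -/
def AltS {n : ℕ} (A B : Finset (Fin n)) (m : ℕ) : Prop :=
  ∃ g : ℕ → Fin n, (∀ i j, i < j → j < m → g i < g j) ∧ (∀ i < m, i % 2 = 0 → g i ∈ A) ∧
    (∀ i < m, i % 2 = 1 → g i ∈ B)

def Alt {n : ℕ} (A B : Finset (Fin n)) (m : ℕ) : Prop := AltS A B m ∨ AltS B A m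

theorem AltS.mono {n : ℕ} {A B A' B' : Finset (Fin n)} {m : ℕ} (h : AltS A B m) (hA : A ⊆ A')
    (hB : B ⊆ B') : AltS A' B' m := by
  obtain ⟨g, h1, h2, h3⟩ := h
  exact ⟨g, h1, fun i hi hi2 => hA (h2 i hi hi2), fun i hi hi2 => hB (h3 i hi hi2)⟩

theorem AltS.anti {n : ℕ} {A B : Finset (Fin n)} {m m' : ℕ} (h : AltS A B m) (hm : m' ≤ m) :
    AltS A B m' := by
  obtain ⟨g, h1, h2, h3⟩ := h
  exact ⟨g, fun i j hij hj => h1 i j hij (lt_of_lt_of_le hj hm),
    fun i hi hi2 => h2 i (lt_of_lt_of_le hi hm) hi2,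
    fun i hi hi2 => h3 i (lt_of_lt_of_le hi hm) hi2⟩

theorem AltS.le {n : ℕ} {A B : Finset (Fin n)} {m : ℕ} (h : AltS A B m) : m ≤ n := by
  obtain ⟨g, h1, -, -⟩ := h
  have key : ∀ i < m, i ≤ (g i).val := by
    intro i hi
    induction i with
    | zero => exact Nat.zero_le _
    | succ i ih =>
      have h2 := ih (by omega)
      have h3 : (g i).val < (g (i + 1)).val := h1 i (i + 1) (Nat.lt_succ_self i) hi
      omega
  rcases Nat.eq_zero_or_pos m with rfl | hm
  · exact Nat.zero_le _
  · have h2 := key (m - 1) (by omega)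
    have h3 := (g (m - 1)).2
    omega

theorem AltS.cons {n : ℕ} {A B : Finset (Fin n)} {m : ℕ} (hm : 0 < m) {x : Fin n} (hx : x ∈ B)
    (hmin : ∀ y ∈ A ∪ B, x ≤ y) (hdis : Disjoint A B) (h : AltS A B m) : AltS B A (m + 1) := by
  obtain ⟨g, h1, h2, h3⟩ := h
  have hx0 : x < g 0 := by
    have h4 := h2 0 hm rfl
    refine lt_of_le_of_ne (hmin _ (Finset.mem_union_left _ h4)) ?_
    rintro rfl
    exact Finset.disjoint_left.1 hdis h4 hx
  have hxi : ∀ i < m, x < g i := by
    intro i hi
    rcases Nat.eq_zero_or_pos i with rfl | h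
    · exact hx0
    · exact hx0.trans (h1 0 i h hi)
  refine ⟨fun i => if i = 0 then x else g (i - 1), ?_, ?_, ?_⟩
  · intro i j hij hj
    have hj0 : j ≠ 0 := by omega
    simp only [if_neg hj0]
    rcases Nat.eq_zero_or_pos i with rfl | h
    · rw [if_pos rfl]
      exact hxi _ (by omega)
    · rw [if_neg h.ne']
      exact h1 _ _ (by omega) (by omega)
  · intro i hi hi2
    rcases Nat.eq_zero_or_pos i with rfl | h
    · simp only [if_pos]
      exact hx
    · simp only [if_neg h.ne']
      exact h3 _ (by omega) (by omega)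
  · intro i hi hi2
    have h : i ≠ 0 := by omega
    simp only [if_neg h]
    exact h2 _ (by omega) (by omega)

theorem Alt.symm {n : ℕ} {A B : Finset (Fin n)} {m : ℕ} (h : Alt A B m) : Alt B A m := Or.symm h

theorem Alt.le {n : ℕ} {A B : Finset (Fin n)} {m : ℕ} (h : Alt A B m) : m ≤ n := by
  rcases h with h | h
  · exact h.le
  · exact h.le

theorem Alt.mono {n : ℕ} {A B A' B' : Finset (Fin n)} {m : ℕ} (h : Alt A B m) (hA : A ⊆ A')
    (hB : B ⊆ B') : Alt A' B' m := by
  rcases h with h | h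
  · exact Or.inl (h.mono hA hB)
  · exact Or.inr (h.mono hB hA)

theorem Alt.anti {n : ℕ} {A B : Finset (Fin n)} {m m' : ℕ} (h : Alt A B m) (hm : m' ≤ m) :
    Alt A B m' := by
  rcases h with h | h
  · exact Or.inl (h.anti hm)
  · exact Or.inr (h.anti hm)

open Classical in
/-- the alternation number -/
noncomputable def alt {n : ℕ} (A B : Finset (Fin n)) : ℕ := Nat.findGreatest (Alt A B) n

theorem le_alt {n : ℕ} {A B : Finset (Fin n)} {m : ℕ} (h : Alt A B m) : m ≤ alt A B := by
  classical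
  exact Nat.le_findGreatest h.le h

theorem alt_spec {n : ℕ} {A B : Finset (Fin n)} (h : (A ∪ B).Nonempty) :
    Alt A B (alt A B) := by
  classical
  obtain ⟨x, hx⟩ := h
  have h0 : Alt A B 0 := Or.inl ⟨fun _ => x, fun i j _ hj => absurd hj (by omega),
    fun i hi => absurd hi (by omega), fun i hi => absurd hi (by omega)⟩
  exact Nat.findGreatest_spec (P := Alt A B) (Nat.zero_le n) h0

theorem alt_comm {n : ℕ} (A B : Finset (Fin n)) : alt B A = alt A B := by
  classical
  unfold alt
  congr 1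
  funext m
  exact propext ⟨Alt.symm, Alt.symm⟩

theorem alt_pos {n : ℕ} {A B : Finset (Fin n)} (h : (A ∪ B).Nonempty) : 1 ≤ alt A B := by
  obtain ⟨x, hx⟩ := h
  apply le_alt
  rcases Finset.mem_union.1 hx with h | h
  · exact Or.inl ⟨fun _ => x, fun i j hij hj => absurd hj (by omega), fun _ _ _ => h,
      fun i hi hi2 => absurd hi2 (by omega)⟩
  · exact Or.inr ⟨fun _ => x, fun i j hij hj => absurd hj (by omega), fun _ _ _ => h,
      fun i hi hi2 => absurd hi2 (by omega)⟩

theorem alt_mono {n : ℕ} {A B A' B' : Finset (Fin n)} (h : (A ∪ B).Nonempty) (hA : A ⊆ A')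
    (hB : B ⊆ B') : alt A B ≤ alt A' B' := le_alt ((alt_spec h).mono hA hB)

/-- the first element is in `A` -/
def Fst {n : ℕ} (A B : Finset (Fin n)) : Prop := ∃ x ∈ A, ∀ y ∈ A ∪ B, x ≤ y

theorem fst_or {n : ℕ} {A B : Finset (Fin n)} (h : (A ∪ B).Nonempty) : Fst A B ∨ Fst B A := by
  obtain ⟨x, hx, hmin⟩ := Finset.exists_min_image (A ∪ B) id h
  rcases Finset.mem_union.1 hx with h1 | h1
  · exact Or.inl ⟨x, h1, hmin⟩
  · refine Or.inr ⟨x, h1, ?_⟩
    rw [Finset.union_comm]
    exact hmin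

theorem not_fst {n : ℕ} {A B : Finset (Fin n)} (hdis : Disjoint A B) (h : Fst A B) :
    ¬ Fst B A := by
  rintro ⟨y, hy, hy2⟩
  obtain ⟨x, hx, hx2⟩ := h
  have h1 := hx2 y (Finset.mem_union_right _ hy)
  have h2 := hy2 x (Finset.mem_union_right _ hx)
  have h3 := le_antisymm h1 h2
  subst h3
  exact Finset.disjoint_left.1 hdis hx hy

theorem altS_of_fst {n : ℕ} {A B : Finset (Fin n)} (hdis : Disjoint A B) (h : Fst A B) :
    AltS A B (alt A B) := by
  obtain ⟨x, hx, hmin⟩ := h
  have hne : (A ∪ B).Nonempty := ⟨x, Finset.mem_union_left _ hx⟩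
  rcases alt_spec hne with h1 | h1
  · exact h1
  · exfalso
    have hpos := alt_pos hne
    have h2 : AltS A B (alt A B + 1) := AltS.cons hpos hx
      (by rw [Finset.union_comm]; exact hmin) hdis.symm h1
    have h3 := le_alt (Or.inl h2)
    omega

theorem fst_mono {n : ℕ} {A B A' B' : Finset (Fin n)} (hdis : Disjoint A B)
    (hdis' : Disjoint A' B') (hA : A ⊆ A') (hB : B ⊆ B') (heq : alt A B = alt A' B')
    (h : Fst A B) : Fst A' B' := by
  have hne : (A ∪ B).Nonempty := by
    obtain ⟨x, hx, -⟩ := h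
    exact ⟨x, Finset.mem_union_left _ hx⟩
  have hne' : (A' ∪ B').Nonempty := hne.mono (Finset.union_subset_union hA hB)
  rcases fst_or hne' with h1 | h1
  · exact h1
  · exfalso
    obtain ⟨x, hx, hmin⟩ := h1
    have h2 := (altS_of_fst hdis h).mono hA hB
    have h3 : AltS B' A' (alt A B + 1) := AltS.cons (alt_pos hne) hx
      (by rw [Finset.union_comm]; exact hmin) hdis' h2
    have h4 := le_alt (Or.inr h3)
    omega

open Classical in
/-- sign of the first element -/
noncomputable def sgm {n : ℕ} (A B : Finset (Fin n)) : ℤ := if Fst A B then 1 else -1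

theorem sgm_abs {n : ℕ} (A B : Finset (Fin n)) : |sgm A B| = 1 := by
  unfold sgm
  split_ifs <;> simp

theorem sgm_comm {n : ℕ} {A B : Finset (Fin n)} (hdis : Disjoint A B) (h : (A ∪ B).Nonempty) :
    sgm B A = -sgm A B := by
  unfold sgm
  rcases fst_or h with h1 | h1
  · rw [if_pos h1, if_neg (not_fst hdis h1)]
  · rw [if_pos h1, if_neg (not_fst hdis.symm h1)]
    rfl

theorem sgm_mono {n : ℕ} {A B A' B' : Finset (Fin n)} (hdis : Disjoint A B)
    (hdis' : Disjoint A' B') (hne : (A ∪ B).Nonempty) (hA : A ⊆ A') (hB : B ⊆ B')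
    (heq : alt A B = alt A' B') : sgm A B = sgm A' B' := by
  unfold sgm
  rcases fst_or hne with h1 | h1
  · rw [if_pos h1, if_pos (fst_mono hdis hdis' hA hB heq h1)]
  · have h2 : Fst B' A' := fst_mono hdis.symm hdis'.symm hB hA
      (by rw [alt_comm A B, alt_comm A' B']; exact heq) h1
    rw [if_neg (not_fst hdis.symm h1), if_neg (not_fst hdis'.symm h2)]

/-- the general Kneser graph of a family of sets -/
def kneser {V : Type*} {n : ℕ} (S : V → Finset (Fin n)) : SimpleGraph V :=
  SimpleGraph.fromRel (fun u v => Disjoint (S u) (S v))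

theorem cross_bound {V : Type*} {n : ℕ} (S : V → Finset (Fin n)) (hS : ∀ v, (S v).Nonempty)
    {a d : ℕ} (ha : 0 < a)
    (hA : ∀ A B : Finset (Fin n), Disjoint A B → AltS A B a → (∃ v, S v ⊆ A) ∧ ∃ v, S v ⊆ B)
    (h : CrossMap (kneser S) d) : n ≤ a - 1 + d := by
  classical
  obtain ⟨F, hF1, hF2⟩ := h
  let 𝒜 : Finset (Fin n) → Set V := fun A => {v | S v ⊆ A}
  have hpair : ∀ A B, Disjoint A B → (A ∪ B).Nonempty → a ≤ alt A B →
      IsPair (kneser S) (𝒜 A) (𝒜 B) := by
    intro A B hdis hne halt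
    have h1 := (alt_spec hne).anti halt
    have h2 : (∃ v, S v ⊆ A) ∧ ∃ v, S v ⊆ B := by
      rcases h1 with h1 | h1
      · exact hA A B hdis h1
      · exact (hA B A hdis.symm h1).symm
    refine ⟨h2.1, h2.2, ?_⟩
    intro u hu v hv
    have hu' : S u ⊆ A := hu
    have hv' : S v ⊆ B := hv
    rw [kneser, SimpleGraph.fromRel_adj]
    have h3 : Disjoint (S u) (S v) := hdis.mono hu' hv'
    refine ⟨?_, Or.inl h3⟩
    rintro rfl
    rw [disjoint_self] at h3
    exact (hS u).ne_empty h3
  let f : Finset (Fin n) → Finset (Fin n) → ℤ := fun A B =>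
    if a ≤ alt A B then (F (𝒜 A) (𝒜 B)).sign * ((a - 1 : ℕ) + |F (𝒜 A) (𝒜 B)|)
    else sgm A B * (alt A B : ℤ)
  have habs1 : ∀ A B, Disjoint A B → (A ∪ B).Nonempty → a ≤ alt A B →
      |f A B| = (a - 1 : ℕ) + |F (𝒜 A) (𝒜 B)| := by
    intro A B hdis hne halt
    have h1 := (hF1 _ _ (hpair A B hdis hne halt)).2.1
    simp only [f, if_pos halt]
    rw [abs_mul]
    have h2 : F (𝒜 A) (𝒜 B) ≠ 0 := by
      intro h0
      rw [h0] at h1
      simp at h1
    have h3 : |(F (𝒜 A) (𝒜 B)).sign| = 1 := by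
      rcases lt_or_gt_of_ne h2 with h | h
      · rw [Int.sign_eq_neg_one_of_neg h]; rfl
      · rw [Int.sign_eq_one_of_pos h]; rfl
    rw [h3, one_mul, abs_of_nonneg]
    positivity
  have habs2 : ∀ A B, ¬ a ≤ alt A B → |f A B| = alt A B := by
    intro A B halt
    simp only [f, if_neg halt]
    rw [abs_mul, sgm_abs, one_mul, Nat.abs_cast]
  refine tucker f ?_ ?_
  · intro A B hdis hne
    have hpos := alt_pos hne
    by_cases halt : a ≤ alt A B
    · obtain ⟨h1, h2, h3⟩ := hF1 _ _ (hpair A B hdis hne halt)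
      refine ⟨?_, ?_, ?_⟩
      · simp only [f]
        rw [alt_comm A B, if_pos halt, if_pos halt, h1, abs_neg, Int.sign_neg]
        ring
      · rw [habs1 A B hdis hne halt]
        have : (0 : ℤ) ≤ (a - 1 : ℕ) := by positivity
        linarith
      · rw [habs1 A B hdis hne halt]
        push_cast
        linarith
    · refine ⟨?_, ?_, ?_⟩
      · simp only [f]
        rw [alt_comm A B, if_neg halt, if_neg halt, sgm_comm hdis hne]
        ring
      · rw [habs2 A B halt]
        exact_mod_cast hpos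
      · rw [habs2 A B halt]
        have : alt A B ≤ a - 1 + d := by omega
        exact_mod_cast this
  · intro A B A' B' hdis hne hdis' hAA hBB
    have hne' : (A' ∪ B').Nonempty := hne.mono (Finset.union_subset_union hAA hBB)
    have hle := alt_mono hne hAA hBB
    by_cases halt : a ≤ alt A B
    · have halt' : a ≤ alt A' B' := halt.trans hle
      rcases hF2 _ _ _ _ (hpair A B hdis hne halt) (hpair A' B' hdis' hne' halt')
        (fun v hv => Finset.Subset.trans hv hAA) (fun v hv => Finset.Subset.trans hv hBB)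
        with h1 | h1
      · left
        simp only [f]
        rw [if_pos halt, if_pos halt', h1]
      · right
        rw [habs1 A B hdis hne halt, habs1 A' B' hdis' hne' halt']
        linarith
    · by_cases halt' : a ≤ alt A' B'
      · right
        rw [habs2 A B halt, habs1 A' B' hdis' hne' halt']
        have h1 := (hF1 _ _ (hpair A' B' hdis' hne' halt')).2.1
        have h2 : alt A B ≤ a - 1 := by omega
        have h3 : (alt A B : ℤ) ≤ (a - 1 : ℕ) := by exact_mod_cast h2
        linarith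
      · rcases hle.lt_or_eq with h1 | h1
        · right
          rw [habs2 A B halt, habs2 A' B' halt']
          exact_mod_cast h1
        · left
          simp only [f]
          rw [if_neg halt, if_neg halt', ← h1, sgm_mono hdis hdis' hne hAA hBB h1]

/-- general Kneser graphs -/
theorem kneser_main {V : Type*} {n : ℕ} (S : V → Finset (Fin n)) (hS : ∀ v, (S v).Nonempty)
    {a k l : ℕ} (ha : 0 < a) (hl : 0 < l)
    (hA : ∀ A B : Finset (Fin n), Disjoint A B → AltS A B a → (∃ v, S v ⊆ A) ∧ ∃ v, S v ⊆ B)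
    (hcol : (kneser S).Colorable (2 ^ l)) (hn : 192 * k * l + a ≤ n) : DiGt (kneser S) k := by
  refine topo' _ hl hcol ?_
  intro h
  have h1 := cross_bound S hS ha hA h
  have h2 : k * (192 * l - 1) - 1 ≤ 192 * k * l := by
    calc k * (192 * l - 1) - 1 ≤ k * (192 * l - 1) := Nat.sub_le _ _
      _ ≤ k * (192 * l) := Nat.mul_le_mul_left _ (Nat.sub_le _ _)
      _ = 192 * k * l := by ring
  omega

end Pool.Agent.H41.ENL
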