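import Pool.Agent.H41.ENL.Tour

/-!
# Local biclique covers: a colour class of an acyclic colouring is poor in labels on one side of
each biclique
-/

namespace Pool.Agent.H41.ENL

open Finset

/-- `δ(G) > k`: some orientation of `G` has no colouring with `k` colours without monochromatic
directed cycle -/
def DiGt {V : Type*} (G : SimpleGraph V) (k : ℕ) : Prop :=
  ∃ O : V → V → Prop, (∀ u v, O u v → G.Adj u v) ∧
    (∀ u v, G.Adj u v → (O u v ∧ ¬ O v u) ∨ (O v u ∧ ¬ O u v)) ∧
    ∀ c : V → Fin k, ∃ x, Relation.TransGen (fun u v => O u v ∧ c u = c v) x x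

/-- the bicliques `(X w, Y w)` cover the edges of `G` and every vertex is in at most `q` of them -/
structure LBC {V W : Type*} (G : SimpleGraph V) (X Y : W → Set V) (q : ℕ) : Prop where
  bic : ∀ w, ∀ u ∈ X w, ∀ v ∈ Y w, G.Adj u v
  cov : ∀ u v, G.Adj u v → ∃ w, (u ∈ X w ∧ v ∈ Y w) ∨ (v ∈ X w ∧ u ∈ Y w)
  loc : ∀ v, {w | v ∈ X w ∨ v ∈ Y w}.encard ≤ q

/-- labels -/
abbrev Lab (N q : ℕ) := Fin q → Option (Fin N × Bool)

def inA {N q : ℕ} (l : Lab N q) (c : Fin N) : Prop := ∃ i, l i = some (c, true)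
def inB {N q : ℕ} (l : Lab N q) (c : Fin N) : Prop := ∃ i, l i = some (c, false)

theorem card_Lab (N q : ℕ) : Fintype.card (Lab N q) = (2 * N + 1) ^ q := by
  simp only [Lab, Fintype.card_fun, Fintype.card_option, Fintype.card_prod, Fintype.card_fin,
    Fintype.card_bool]
  rw [mul_comm N 2]

theorem exists_enum {W : Type*} (S : Set W) (q : ℕ) (h : S.encard ≤ q) :
    ∃ e : Fin q → Option W, (∀ w ∈ S, ∃ i, e i = some w) ∧ ∀ i w, e i = some w → w ∈ S := by
  classical
  have hfin : S.Finite := Set.finite_of_encard_le_coe h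
  have hcard : hfin.toFinset.card ≤ q := by
    rw [hfin.encard_eq_coe_toFinset_card] at h
    exact_mod_cast h
  let f := hfin.toFinset.equivFin
  let e : Fin q → Option W := fun i =>
    if hi : i.1 < hfin.toFinset.card then some (f.symm ⟨i.1, hi⟩).1 else none
  have he1 : ∀ (i : Fin q) (hi : i.1 < hfin.toFinset.card), e i = some (f.symm ⟨i.1, hi⟩).1 :=
    fun i hi => dif_pos hi
  have he2 : ∀ (i : Fin q), ¬ i.1 < hfin.toFinset.card → e i = none :=
    fun i hi => dif_neg hi
  refine ⟨e, ?_, ?_⟩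
  · intro w hw
    let w' : hfin.toFinset := ⟨w, by simpa using hw⟩
    refine ⟨⟨(f w').1, lt_of_lt_of_le (f w').2 hcard⟩, ?_⟩
    rw [he1 _ (f w').2]
    simp [w']
  · intro i w hw
    by_cases hi : i.1 < hfin.toFinset.card
    · rw [he1 i hi] at hw
      have h1 := (f.symm ⟨i.1, hi⟩).2
      have h2 : (f.symm ⟨i.1, hi⟩).1 = w := Option.some_injective _ hw
      rw [h2] at h1
      simpa using h1
    · rw [he2 i hi] at hw
      exact absurd hw (by simp)

theorem exists_label {V W : Type*} {G : SimpleGraph V} {X Y : W → Set V} {q : ℕ}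
    (h : LBC G X Y q) {N : ℕ} (C0 : W → Fin N) :
    ∃ lab : V → Lab N q, ∀ v c, (inA (lab v) c ↔ ∃ w, v ∈ X w ∧ C0 w = c) ∧
      (inB (lab v) c ↔ ∃ w, v ∈ Y w ∧ C0 w = c) := by
  classical
  have key : ∀ v, ∃ l : Lab N q, ∀ c, (inA l c ↔ ∃ w, v ∈ X w ∧ C0 w = c) ∧
      (inB l c ↔ ∃ w, v ∈ Y w ∧ C0 w = c) := by
    intro v
    obtain ⟨e, he1, he2⟩ := exists_enum {w | v ∈ X w ∨ v ∈ Y w} q (h.loc v)
    have hdis : ∀ w, v ∈ X w → v ∉ Y w := fun w h1 h2 => (h.bic w v h1 v h2).ne rfl
    refine ⟨fun i => (e i).map (fun w => (C0 w, decide (v ∈ X w))), fun c => ⟨?_, ?_⟩⟩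
    · constructor
      · rintro ⟨i, hi⟩
        simp only [Option.map_eq_some_iff, Prod.mk.injEq, decide_eq_true_eq] at hi
        obtain ⟨w, -, hc, hX⟩ := hi
        exact ⟨w, hX, hc⟩
      · rintro ⟨w, hX, hc⟩
        obtain ⟨i, hi⟩ := he1 w (Or.inl hX)
        refine ⟨i, ?_⟩
        simp [hi, hc, hX]
    · constructor
      · rintro ⟨i, hi⟩
        simp only [Option.map_eq_some_iff, Prod.mk.injEq, decide_eq_false_iff_not] at hi
        obtain ⟨w, hw, hc, hX⟩ := hi
        rcases he2 i w hw with h1 | h1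
        · exact absurd h1 hX
        · exact ⟨w, h1, hc⟩
      · rintro ⟨w, hY, hc⟩
        obtain ⟨i, hi⟩ := he1 w (Or.inr hY)
        refine ⟨i, ?_⟩
        have hX : v ∉ X w := fun h1 => hdis w h1 hY
        simp [hi, hc, hX]
  choose lab hlab using key
  exact ⟨lab, hlab⟩

theorem card_inA {N q : ℕ} (l : Lab N q) [DecidablePred (inA l)] :
    (univ.filter (inA l)).card ≤ q := by
  classical
  have h1 : (univ.filter (inA l)).card ≤ (univ : Finset (Fin q)).card := by
    have hch : ∀ c : Fin N, ∃ i : Option (Fin q), inA l c → ∃ j, i = some j ∧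
        l j = some (c, true) := by
      intro c
      by_cases hc : inA l c
      · obtain ⟨i, hi⟩ := hc
        exact ⟨some i, fun _ => ⟨i, rfl, hi⟩⟩
      · exact ⟨none, fun h => absurd h hc⟩
    choose g hg using hch
    have h2 : (univ.filter (inA l)).card ≤ ((univ : Finset (Fin q)).image some).card := by
      refine Finset.card_le_card_of_injOn g ?_ ?_
      · intro c hc
        obtain ⟨j, hj, -⟩ := hg c (by simpa using hc)
        simp [hj]
      · intro c hc c' hc' hcc
        obtain ⟨j, hj, h3⟩ := hg c (by simpa using hc)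
        obtain ⟨j', hj', h4⟩ := hg c' (by simpa using hc')
        rw [hj, hj'] at hcc
        have := Option.some_injective _ hcc
        subst this
        rw [h3] at h4
        have h5 := Option.some_injective _ h4
        exact (Prod.mk.inj h5).1
    exact h2.trans Finset.card_image_le
  simpa using h1

theorem card_inB {N q : ℕ} (l : Lab N q) [DecidablePred (inB l)] :
    (univ.filter (inB l)).card ≤ q := by
  classical
  let l' : Lab N q := fun i => (l i).map (fun x => (x.1, !x.2))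
  have h1 : ∀ c, inB l c ↔ inA l' c := by
    intro c
    unfold inA inB
    refine exists_congr fun i => ?_
    simp only [l', Option.map_eq_some_iff, Prod.mk.injEq, Bool.not_eq_true', Prod.exists]
    constructor
    · intro h
      exact ⟨c, false, h, rfl, rfl⟩
    · rintro ⟨a, b, h, rfl, rfl⟩
      exact h
  have h2 : (univ.filter (inB l)) = (univ.filter (inA l')) := by
    ext c; simp [h1]
  rw [h2]
  exact card_inA l'

theorem core {V W : Type*} {G : SimpleGraph V} {X Y : W → Set V} {q : ℕ}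
    (h : LBC G X Y q) {k N m : ℕ} (C0 : W → Fin N)
    (hC0 : ∀ u w v, v ∈ X u → v ∈ Y w → C0 u ≠ C0 w) (hm : 0 < m)
    (hL : ((2 * N + 1) ^ q) ^ 4 * 7 ^ m < 8 ^ m) (hnot : ¬ DiGt G k) :
    ∃ (T : W → Finset (Fin k)) (M : W → Finset (Fin N)),
      (∀ w, (M w).card ≤ k * (4 * m) * q) ∧
      ∀ u w v, v ∈ X u → v ∈ Y w → T u = T w → C0 u ∈ M w ∨ C0 w ∈ M u := by
  classical
  obtain ⟨lab, hlab⟩ := exists_label h C0
  rw [← card_Lab N q] at hL
  obtain ⟨R, hR1, hR2⟩ := exists_tour (Lab N q) m hm hL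
  -- the labelling is proper
  have hprop : ∀ w, ∀ u ∈ X w, ∀ v ∈ Y w, lab u ≠ lab v := by
    intro w u hu v hv huv
    have h1 : inA (lab u) (C0 w) := (hlab u (C0 w)).1.2 ⟨w, hu, rfl⟩
    rw [huv] at h1
    obtain ⟨w', hw', hc⟩ := (hlab v (C0 w)).1.1 h1
    exact hC0 w' w v hw' hv hc
  -- the orientation
  have horient : ∃ c : V → Fin k, ∀ x, ¬ Relation.TransGen
      (fun u v => (G.Adj u v ∧ R (lab u) (lab v) = true) ∧ c u = c v) x x := by
    by_contra hcon
    push Not at hcon
    refine hnot ⟨fun u v => G.Adj u v ∧ R (lab u) (lab v) = true, fun u v h1 => h1.1, ?_, hcon⟩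
    intro u v huv
    have hne : lab u ≠ lab v := by
      obtain ⟨w, ⟨h1, h2⟩ | ⟨h1, h2⟩⟩ := h.cov u v huv
      · exact hprop w u h1 v h2
      · exact (hprop w v h1 u h2).symm
    have h1 := hR1 _ _ hne
    rcases h2 : R (lab v) (lab u) with _ | _
    · rw [h2] at h1
      left
      refine ⟨⟨huv, h1⟩, fun h3 => ?_⟩
      have h4 := h3.2
      rw [h2] at h4
      exact absurd h4 (by decide)
    · rw [h2] at h1
      right
      refine ⟨⟨huv.symm, h2⟩, fun h3 => ?_⟩
      have h4 := h3.2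
      rw [h1] at h4
      exact absurd h4 (by decide)
  obtain ⟨c, hc⟩ := horient
  let LX : W → Fin k → Finset (Lab N q) := fun w α =>
    univ.filter (fun l => ∃ v ∈ X w, c v = α ∧ lab v = l)
  let LY : W → Fin k → Finset (Lab N q) := fun w α =>
    univ.filter (fun l => ∃ v ∈ Y w, c v = α ∧ lab v = l)
  have hpoor : ∀ w α, 4 * m ≤ (LX w α).card → (LY w α).card < 4 * m := by
    intro w α h1
    by_contra h2
    push Not at h2
    have hdis : Disjoint (LX w α) (LY w α) := by
      rw [Finset.disjoint_left]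
      intro l h3 h4
      obtain ⟨u, hu, -, hu2⟩ := (Finset.mem_filter.1 h3).2
      obtain ⟨v, hv, -, hv2⟩ := (Finset.mem_filter.1 h4).2
      exact hprop w u hu v hv (hu2.trans hv2.symm)
    obtain ⟨a, ha, a', ha', b, hb, b', hb', hcyc⟩ := hR2 _ _ hdis h1 h2
    obtain ⟨u, hu, hu1, rfl⟩ := (Finset.mem_filter.1 ha).2
    obtain ⟨u', hu', hu1', rfl⟩ := (Finset.mem_filter.1 ha').2
    obtain ⟨v, hv, hv1, rfl⟩ := (Finset.mem_filter.1 hb).2
    obtain ⟨v', hv', hv1', rfl⟩ := (Finset.mem_filter.1 hb').2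
    refine hc u ?_
    refine Relation.TransGen.trans (Relation.TransGen.trans (Relation.TransGen.trans
      (b := v) (Relation.TransGen.single ?_) (c := u') (Relation.TransGen.single ?_))
      (c := v') (Relation.TransGen.single ?_)) (Relation.TransGen.single ?_)
    · exact ⟨⟨h.bic w u hu v hv, hcyc.1⟩, hu1.trans hv1.symm⟩
    · exact ⟨⟨(h.bic w u' hu' v hv).symm, hcyc.2.1⟩, hv1.trans hu1'.symm⟩
    · exact ⟨⟨h.bic w u' hu' v' hv', hcyc.2.2.1⟩, hu1'.trans hv1'.symm⟩
    · exact ⟨⟨(h.bic w u hu v' hv').symm, hcyc.2.2.2⟩, hv1'.trans hu1.symm⟩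
  let T : W → Finset (Fin k) := fun w => univ.filter (fun α => 4 * m ≤ (LX w α).card)
  let M : W → Finset (Fin N) := fun w =>
    ((T w).biUnion fun α => (LY w α).biUnion fun l => univ.filter (inA l)) ∪
      ((T w)ᶜ.biUnion fun α => (LX w α).biUnion fun l => univ.filter (inB l))
  refine ⟨T, M, ?_, ?_⟩
  · intro w
    have h1 : ((T w).biUnion fun α => (LY w α).biUnion fun l => univ.filter (inA l)).card
        ≤ (T w).card * ((4 * m) * q) := by
      refine Finset.card_biUnion_le_card_mul _ _ _ fun α hα => ?_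
      refine (Finset.card_biUnion_le_card_mul _ _ q fun l _ => card_inA l).trans ?_
      exact Nat.mul_le_mul_right _ (hpoor w α (Finset.mem_filter.1 hα).2).le
    have h2 : ((T w)ᶜ.biUnion fun α => (LX w α).biUnion fun l => univ.filter (inB l)).card
        ≤ (T w)ᶜ.card * ((4 * m) * q) := by
      refine Finset.card_biUnion_le_card_mul _ _ _ fun α hα => ?_
      refine (Finset.card_biUnion_le_card_mul _ _ q fun l _ => card_inB l).trans ?_
      refine Nat.mul_le_mul_right _ ?_
      rw [Finset.mem_compl] at hα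
      by_contra h3
      push Not at h3
      exact hα (Finset.mem_filter.2 ⟨Finset.mem_univ _, h3.le⟩)
    refine (Finset.card_union_le _ _).trans ((Nat.add_le_add h1 h2).trans ?_)
    rw [← add_mul, Finset.card_add_card_compl, Fintype.card_fin]
    apply le_of_eq; ring
  · intro u w v hu hw hT
    by_cases hα : c v ∈ T w
    · left
      refine Finset.mem_union_left _ ?_
      rw [Finset.mem_biUnion]
      refine ⟨c v, hα, ?_⟩
      rw [Finset.mem_biUnion]
      refine ⟨lab v, Finset.mem_filter.2 ⟨Finset.mem_univ _, v, hw, rfl, rfl⟩, ?_⟩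
      exact Finset.mem_filter.2 ⟨Finset.mem_univ _, (hlab v (C0 u)).1.2 ⟨u, hu, rfl⟩⟩
    · right
      refine Finset.mem_union_right _ ?_
      rw [Finset.mem_biUnion]
      refine ⟨c v, by rw [Finset.mem_compl, hT]; exact hα, ?_⟩
      rw [Finset.mem_biUnion]
      refine ⟨lab v, Finset.mem_filter.2 ⟨Finset.mem_univ _, v, hu, rfl, rfl⟩, ?_⟩
      exact Finset.mem_filter.2 ⟨Finset.mem_univ _, (hlab v (C0 w)).2.2 ⟨w, hw, rfl⟩⟩

end Pool.Agent.H41.ENL
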