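import Pool.Agent.H41.ENL.Core

/-!
# A small family of sets separating all labels
-/

namespace Pool.Agent.H41.ENL

open Finset

/-- `f` is compatible with the label -/
def Compat {N q : ℕ} (f : Fin N → Bool) (l : Lab N q) : Prop :=
  (∀ c, inA l c → f c = true) ∧ (∀ c, inB l c → f c = false)

theorem card_compat {N q : ℕ} (l : Lab N q) (hl : ∀ c, ¬ (inA l c ∧ inB l c))
    [DecidablePred (fun f : Fin N → Bool => Compat f l)] :
    2 ^ N ≤ (univ.filter (fun f : Fin N → Bool => Compat f l)).card * 2 ^ q := by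
  classical
  have h1 : (univ : Finset (Fin N → Bool)).card ≤
      ((univ.filter (fun f : Fin N → Bool => Compat f l)) ×ˢ
        (univ : Finset (Fin q → Bool))).card := by
    let ov : (Fin N → Bool) → (Fin N → Bool) := fun f c =>
      if inA l c then true else if inB l c then false else f c
    let vl : (Fin N → Bool) → (Fin q → Bool) := fun f i =>
      match l i with
      | none => true
      | some x => f x.1
    have hvl : ∀ f i c b, l i = some (c, b) → vl f i = f c := by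
      intro f i c b h
      simp only [vl, h]
    refine Finset.card_le_card_of_injOn (fun f => (ov f, vl f)) ?_ ?_
    · intro f _
      simp only [Finset.coe_product, Set.mem_prod, Finset.mem_coe, Finset.mem_filter,
        Finset.mem_univ, true_and, and_true]
      refine ⟨fun c hc => ?_, fun c hc => ?_⟩
      · simp only [ov, if_pos hc]
      · have h2 : ¬ inA l c := fun h => hl c ⟨h, hc⟩
        simp only [ov, if_neg h2, if_pos hc]
    · intro f _ f' _ hff
      simp only [Prod.mk.injEq] at hff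
      funext c
      by_cases hA : inA l c
      · obtain ⟨i, hi⟩ := hA
        rw [← hvl f i c true hi, ← hvl f' i c true hi, hff.2]
      · by_cases hB : inB l c
        · obtain ⟨i, hi⟩ := hB
          rw [← hvl f i c false hi, ← hvl f' i c false hi, hff.2]
        · have h3 := congrFun hff.1 c
          simp only [ov, if_neg hA, if_neg hB] at h3
          exact h3
  rw [Finset.card_product, Finset.card_univ, Finset.card_univ, Fintype.card_fun, Fintype.card_fun,
    Fintype.card_bool, Fintype.card_fin, Fintype.card_fin] at h1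
  exact h1

theorem family (N q J : ℕ) (h : (2 * N + 1) ^ q * (2 ^ q - 1) ^ J < (2 ^ q) ^ J) :
    ∃ F : Fin J → Fin N → Bool, ∀ l : Lab N q, (∀ c, ¬ (inA l c ∧ inB l c)) →
      ∃ j, Compat (F j) l := by
  classical
  by_contra hcon
  push Not at hcon
  let good : Finset (Lab N q) := univ.filter (fun l => ∀ c, ¬ (inA l c ∧ inB l c))
  let bad : Lab N q → Finset (Fin N → Bool) := fun l => univ.filter (fun f => ¬ Compat f l)
  have hcov : (univ : Finset (Fin J → Fin N → Bool)) ⊆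
      good.biUnion (fun l => Fintype.piFinset (fun _ : Fin J => bad l)) := by
    intro F _
    obtain ⟨l, hl1, hl2⟩ := hcon F
    rw [Finset.mem_biUnion]
    refine ⟨l, Finset.mem_filter.2 ⟨Finset.mem_univ _, fun c => ?_⟩, ?_⟩
    · have := hl1 c
      tauto
    · rw [Fintype.mem_piFinset]
      intro j
      exact Finset.mem_filter.2 ⟨Finset.mem_univ _, hl2 j⟩
  have hbad : ∀ l ∈ good, (bad l).card * 2 ^ q ≤ 2 ^ N * (2 ^ q - 1) := by
    intro l hl
    have h1 := card_compat l (Finset.mem_filter.1 hl).2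
    have h2 := Finset.card_filter_add_card_filter_not (s := (univ : Finset (Fin N → Bool)))
      (fun f => Compat f l)
    rw [Finset.card_univ, Fintype.card_fun, Fintype.card_bool, Fintype.card_fin] at h2
    have h3 : (univ.filter (fun f : Fin N → Bool => Compat f l)).card * 2 ^ q
        + (bad l).card * 2 ^ q = 2 ^ N * 2 ^ q := by
      rw [← add_mul, h2]
    rw [Nat.mul_sub, mul_one]
    omega
  have h1 := (Finset.card_le_card hcov).trans Finset.card_biUnion_le
  rw [Finset.card_univ, Fintype.card_fun, Fintype.card_fun, Fintype.card_bool, Fintype.card_fin,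
    Fintype.card_fin] at h1
  have h2 : ∑ l ∈ good, (Fintype.piFinset (fun _ : Fin J => bad l)).card * (2 ^ q) ^ J ≤
      ∑ _l ∈ good, (2 ^ N) ^ J * (2 ^ q - 1) ^ J := by
    refine Finset.sum_le_sum fun l hl => ?_
    rw [Fintype.card_piFinset, Finset.prod_const, Finset.card_univ, Fintype.card_fin,
      ← mul_pow, ← mul_pow]
    exact Nat.pow_le_pow_left (hbad l hl) J
  have h3 : good.card ≤ (2 * N + 1) ^ q := by
    rw [← card_Lab N q]
    exact Finset.card_le_univ _
  have h4 : (2 ^ N) ^ J * (2 ^ q) ^ J ≤ (2 * N + 1) ^ q * ((2 ^ N) ^ J * (2 ^ q - 1) ^ J) := by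
    calc (2 ^ N) ^ J * (2 ^ q) ^ J
        ≤ (∑ l ∈ good, (Fintype.piFinset (fun _ : Fin J => bad l)).card) * (2 ^ q) ^ J :=
          Nat.mul_le_mul_right _ h1
      _ = ∑ l ∈ good, (Fintype.piFinset (fun _ : Fin J => bad l)).card * (2 ^ q) ^ J :=
          Finset.sum_mul _ _ _
      _ ≤ ∑ _l ∈ good, (2 ^ N) ^ J * (2 ^ q - 1) ^ J := h2
      _ = good.card * ((2 ^ N) ^ J * (2 ^ q - 1) ^ J) := by rw [Finset.sum_const, smul_eq_mul]
      _ ≤ _ := Nat.mul_le_mul_right _ h3
  have h5 : (2 ^ N) ^ J * (2 ^ q) ^ J ≤ (2 ^ N) ^ J * ((2 * N + 1) ^ q * (2 ^ q - 1) ^ J) := by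
    calc _ ≤ _ := h4
      _ = _ := by ring
  have h6 := Nat.le_of_mul_le_mul_left h5 (by positivity)
  omega

theorem pow_aux (a n : ℕ) : a ^ (n + 1) + (n + 1) * a ^ n ≤ (a + 1) ^ (n + 1) := by
  induction n with
  | zero => simp
  | succ n ih =>
    calc a ^ (n + 1 + 1) + (n + 1 + 1) * a ^ (n + 1)
        ≤ (a + 1) * (a ^ (n + 1) + (n + 1) * a ^ n) := by
          have h1 : (a + 1) * (a ^ (n + 1) + (n + 1) * a ^ n) =
            a ^ (n + 1 + 1) + (n + 1 + 1) * a ^ (n + 1) + (n + 1) * a ^ n := by ring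
          rw [h1]
          exact Nat.le_add_right _ _
      _ ≤ (a + 1) * (a + 1) ^ (n + 1) := Nat.mul_le_mul_left _ ih
      _ = (a + 1) ^ (n + 1 + 1) := by ring

theorem pow_half (M : ℕ) (hM : 0 < M) : 2 * (M - 1) ^ M ≤ M ^ M := by
  obtain ⟨a, rfl⟩ : ∃ a, M = a + 1 := ⟨M - 1, by omega⟩
  rw [Nat.add_sub_cancel]
  have h1 := pow_aux a a
  have h2 : 2 * a ^ (a + 1) ≤ a ^ (a + 1) + (a + 1) * a ^ a := by
    have h3 : a ^ (a + 1) = a * a ^ a := by ring
    rw [h3]
    nlinarith [Nat.zero_le (a ^ a)]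
  exact h2.trans h1

/-- the number of colours -/
theorem family_size {N q ℓ : ℕ} (hq : 0 < q) (hN : N < 2 ^ ℓ) :
    (2 * N + 1) ^ q * (2 ^ q - 1) ^ (2 ^ q * (q * (ℓ + 1))) <
      (2 ^ q) ^ (2 ^ q * (q * (ℓ + 1))) := by
  have h1 : (2 * N + 1) ^ q < 2 ^ (q * (ℓ + 1)) := by
    rw [mul_comm q, pow_mul]
    refine Nat.pow_lt_pow_left ?_ hq.ne'
    rw [pow_succ]
    omega
  have h2 : 2 ^ (q * (ℓ + 1)) * (2 ^ q - 1) ^ (2 ^ q * (q * (ℓ + 1))) ≤
      (2 ^ q) ^ (2 ^ q * (q * (ℓ + 1))) := by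
    rw [pow_mul (2 ^ q - 1), pow_mul (2 ^ q), ← mul_pow]
    exact Nat.pow_le_pow_left (pow_half (2 ^ q) (by positivity)) _
  have h3 : 0 < (2 ^ q - 1) ^ (2 ^ q * (q * (ℓ + 1))) := by
    apply Nat.pow_pos
    have : 2 ^ 1 ≤ 2 ^ q := Nat.pow_le_pow_right (by norm_num) hq
    omega
  calc _ < 2 ^ (q * (ℓ + 1)) * (2 ^ q - 1) ^ (2 ^ q * (q * (ℓ + 1))) :=
        Nat.mul_lt_mul_of_pos_right h1 h3
    _ ≤ _ := h2

/-- the chromatic number of `G` is small if the one of the digraph of the cover is -/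
theorem colorable {V W : Type*} {G : SimpleGraph V} {X Y : W → Set V} {q : ℕ}
    (h : LBC G X Y q) {N ℓ : ℕ} (hq : 0 < q) (hN : N < 2 ^ ℓ) (C0 : W → Fin N)
    (hC0 : ∀ u w v, v ∈ X u → v ∈ Y w → C0 u ≠ C0 w) :
    G.Colorable (2 ^ q * (q * (ℓ + 1))) := by
  obtain ⟨F, hF⟩ := family N q _ (family_size hq hN)
  obtain ⟨lab, hlab⟩ := exists_label h C0
  have hdis : ∀ v c, ¬ (inA (lab v) c ∧ inB (lab v) c) := by
    rintro v c ⟨h1, h2⟩
    obtain ⟨u, hu, rfl⟩ := (hlab v c).1.1 h1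
    obtain ⟨w, hw, hc⟩ := (hlab v _).2.1 h2
    exact hC0 u w v hu hw hc.symm
  choose j hj using fun v => hF (lab v) (hdis v)
  have hX : ∀ v w, v ∈ X w → F (j v) (C0 w) = true := fun v w hv =>
    (hj v).1 _ ((hlab v (C0 w)).1.2 ⟨w, hv, rfl⟩)
  have hY : ∀ v w, v ∈ Y w → F (j v) (C0 w) = false := fun v w hv =>
    (hj v).2 _ ((hlab v (C0 w)).2.2 ⟨w, hv, rfl⟩)
  refine ⟨SimpleGraph.Coloring.mk j ?_⟩
  intro u v huv heq
  obtain ⟨w, ⟨h1, h2⟩ | ⟨h1, h2⟩⟩ := h.cov u v huv
  · have h3 := hX u w h1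
    have h4 := hY v w h2
    rw [heq, h4] at h3
    exact absurd h3 (by decide)
  · have h3 := hX v w h1
    have h4 := hY u w h2
    rw [heq, h3] at h4
    exact absurd h4 (by decide)

end Pool.Agent.H41.ENL
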