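import Pool.Agent.H41.ENL.Main

/-!
# Line digraphs: `χ(L(D)) - O(log χ(L(D))) ≤ δ(L(D))`
-/

namespace Pool.Agent.H41.ENL

open Finset

/-- the underlying graph of the line digraph of the digraph `E` -/
def lineG {V : Type*} (E : V → V → Prop) : SimpleGraph {p : V × V // E p.1 p.2} :=
  SimpleGraph.fromRel (fun p q => p.1.2 = q.1.1)

theorem lbc_line {V : Type*} {E : V → V → Prop} (hE : ∀ u, ¬ E u u) :
    LBC (lineG E) (fun w => {p | p.1.2 = w}) (fun w => {p | p.1.1 = w}) 2 := by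
  refine ⟨?_, ?_, ?_⟩
  · intro w u hu v hv
    rw [lineG, SimpleGraph.fromRel_adj]
    have hu' : u.1.2 = w := hu
    have hv' : v.1.1 = w := hv
    refine ⟨?_, Or.inl (hu'.trans hv'.symm)⟩
    rintro rfl
    have h1 := u.2
    rw [hu', hv'] at h1
    exact hE w h1
  · intro u v huv
    rw [lineG, SimpleGraph.fromRel_adj] at huv
    rcases huv.2 with h | h
    · exact ⟨u.1.2, Or.inl ⟨rfl, h.symm⟩⟩
    · exact ⟨v.1.2, Or.inr ⟨rfl, h.symm⟩⟩
  · intro v
    have h1 : {w | v ∈ {p : {p : V × V // E p.1 p.2} | p.1.2 = w} ∨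
        v ∈ {p : {p : V × V // E p.1 p.2} | p.1.1 = w}} ⊆ ({v.1.2, v.1.1} : Set V) := by
      intro w hw
      rcases hw with h | h
      · exact Or.inl h.symm
      · exact Or.inr h.symm
    refine (Set.encard_le_encard h1).trans ((Set.encard_insert_le _ _).trans ?_)
    rw [Set.encard_singleton]
    norm_num

theorem line_colorable {V : Type*} {E : V → V → Prop} {n : ℕ}
    (f : V → Fin (n.choose (n / 2))) (hf : ∀ u v, E u v → f u ≠ f v) :
    (lineG E).Colorable n := by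
  classical
  let Ω := {s : Finset (Fin n) // s.card = n / 2}
  have hcard : Fintype.card Ω = n.choose (n / 2) := by
    rw [Fintype.card_finset_len, Fintype.card_fin]
  let e : Fin (n.choose (n / 2)) ≃ Ω := (Fintype.equivFinOfCardEq hcard).symm
  have hex : ∀ p : {p : V × V // E p.1 p.2}, ∃ x : Fin n, x ∈ (e (f p.1.1)).1 ∧
      x ∉ (e (f p.1.2)).1 := by
    intro p
    by_contra hcon
    push Not at hcon
    have h1 : (e (f p.1.1)).1 ⊆ (e (f p.1.2)).1 := fun x hx => hcon x hx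
    have h2 := Finset.eq_of_subset_of_card_le h1
      (by rw [(e (f p.1.1)).2, (e (f p.1.2)).2])
    exact hf _ _ p.2 (e.injective (Subtype.ext h2))
  choose x hx1 hx2 using hex
  refine ⟨SimpleGraph.Coloring.mk x ?_⟩
  intro p q hpq heq
  rw [lineG, SimpleGraph.fromRel_adj] at hpq
  rcases hpq.2 with h | h
  · have h1 := hx2 p
    have h2 := hx1 q
    rw [h] at h1
    rw [heq] at h1
    exact h1 h2
  · have h1 := hx2 q
    have h2 := hx1 p
    rw [h] at h1
    rw [← heq] at h1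
    exact h1 h2

theorem two_pow_le_choose (n : ℕ) : 2 ^ n ≤ (n + 1) * n.choose (n / 2) := by
  rw [← Nat.sum_range_choose n]
  calc ∑ m ∈ range (n + 1), n.choose m ≤ ∑ _m ∈ range (n + 1), n.choose (n / 2) :=
        Finset.sum_le_sum fun m _ => Nat.choose_le_middle m n
    _ = _ := by rw [Finset.sum_const, Finset.card_range, smul_eq_mul]

theorem line_main {V : Type*} [Finite V] {E : V → V → Prop} (hE : ∀ u, ¬ E u u) {n k : ℕ}
    (hχ : ¬ (lineG E).Colorable n) (hk : k + 7 * Nat.log 2 (n + 1) + 35 ≤ n) :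
    DiGt (lineG E) k := by
  by_contra hnot
  have hV : Nonempty {p : V × V // E p.1 p.2} := by
    by_contra hemp
    rw [not_nonempty_iff] at hemp
    exact hχ (SimpleGraph.Colorable.of_isEmpty _)
  rcases Nat.eq_zero_or_pos k with rfl | hk0
  · exact hnot (diGt_zero _)
  have hL := lbc_line hE
  obtain ⟨N, C0, hC0, hmin⟩ := exists_min hL
  have hNlt : n.choose (n / 2) < N := by
    by_contra hle
    push Not at hle
    refine hχ (line_colorable (fun v => Fin.castLE hle (C0 v)) ?_)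
    intro u v huv heq
    exact hC0 v u ⟨(u, v), huv⟩ rfl rfl (Fin.castLE_injective hle heq).symm
  have hNpos : 0 < N := by omega
  have hlt : N < 2 ^ (Nat.log 2 N + 1) := Nat.lt_pow_succ_log_self (by norm_num) N
  have hge : 2 ^ (Nat.log 2 N + 1) ≤ 2 * N := by
    rw [pow_succ, mul_comm]
    exact Nat.mul_le_mul_left _ (Nat.pow_log_le_self 2 hNpos.ne')
  obtain ⟨C1, hC1⟩ := step hL hk0 (by norm_num) (Nat.succ_pos _) hlt C0 hC0 hnot
  have h1 := hmin _ C1 hC1
  have h2 := num hge h1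
  set ℓ := Nat.log 2 N + 1 with hℓ
  have h3 : ℓ + 1 ≤ 4 * (n + 1) := by omega
  have hkn : k ≤ n + 1 := by omega
  have h4 : N ≤ 2 ^ k * (2 ^ 28 * (n + 1) ^ 6) := by
    calc N ≤ 2 ^ k * (192 * k * 2 ^ 2 * (ℓ * (ℓ + 1))) ^ 2 := h1
      _ ≤ 2 ^ k * (192 * (n + 1) * 2 ^ 2 * ((4 * (n + 1)) * (4 * (n + 1)))) ^ 2 := by
          refine Nat.mul_le_mul_left _ (Nat.pow_le_pow_left (Nat.mul_le_mul ?_ ?_) 2)
          · exact Nat.mul_le_mul_right _ (Nat.mul_le_mul_left _ hkn)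
          · exact Nat.mul_le_mul ((Nat.le_succ _).trans h3) h3
      _ = 2 ^ k * (12288 ^ 2 * (n + 1) ^ 6) := by ring
      _ ≤ 2 ^ k * (2 ^ 28 * (n + 1) ^ 6) :=
          Nat.mul_le_mul_left _ (Nat.mul_le_mul_right _ (by norm_num))
  have h5 : 2 ^ n < 2 ^ (k + 28) * (n + 1) ^ 7 := by
    calc 2 ^ n ≤ (n + 1) * n.choose (n / 2) := two_pow_le_choose n
      _ < (n + 1) * N := Nat.mul_lt_mul_of_pos_left hNlt (Nat.succ_pos _)
      _ ≤ (n + 1) * (2 ^ k * (2 ^ 28 * (n + 1) ^ 6)) := Nat.mul_le_mul_left _ h4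
      _ = _ := by ring
  have h6 : (n + 1) ^ 7 ≤ 2 ^ (7 * (Nat.log 2 (n + 1) + 1)) := by
    rw [mul_comm 7, pow_mul]
    exact Nat.pow_le_pow_left (Nat.lt_pow_succ_log_self (by norm_num) _).le 7
  have h7 : 2 ^ n < 2 ^ (k + 28 + 7 * (Nat.log 2 (n + 1) + 1)) := by
    calc 2 ^ n < 2 ^ (k + 28) * (n + 1) ^ 7 := h5
      _ ≤ 2 ^ (k + 28) * 2 ^ (7 * (Nat.log 2 (n + 1) + 1)) := Nat.mul_le_mul_left _ h6
      _ = _ := (pow_add _ _ _).symm
  have h8 := (Nat.pow_lt_pow_iff_right (by norm_num : 1 < 2)).1 h7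
  omega

end Pool.Agent.H41.ENL
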