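import Mathlib

/-!
# Linial's colour reduction: separation of a colour from few others by polynomials over `F_p`
-/

namespace Pool.Agent.H41.ENL

open Finset Polynomial

theorem separate (N t d p : ℕ) [hp : Fact p.Prime] (hN : N ≤ p ^ d) (ht : t * d < p) :
    ∃ f : Fin N → ZMod p → ZMod p, ∀ (c : Fin N) (M : Finset (Fin N)), M.card ≤ t →
      ∃ x, ∀ a ∈ M, a ≠ c → f a x ≠ f c x := by
  classical
  have h1 : Fintype.card (Fin N) ≤ Fintype.card (Fin d → ZMod p) := by
    rw [Fintype.card_fun, ZMod.card, Fintype.card_fin, Fintype.card_fin]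
    exact hN
  obtain ⟨g⟩ := Function.Embedding.nonempty_of_card_le h1
  let P : Fin N → (ZMod p)[X] := fun c => ∑ i : Fin d, C (g c i) * X ^ (i : ℕ)
  have hco : ∀ c (j : Fin d), (P c).coeff j = g c j := by
    intro c j
    simp only [P, finsetSum_coeff, coeff_C_mul, coeff_X_pow]
    rw [Finset.sum_eq_single j]
    · simp
    · intro i _ hij
      rw [if_neg (fun h => hij (Fin.ext h.symm)), mul_zero]
    · intro h
      exact absurd (Finset.mem_univ j) h
  have hinj : Function.Injective P := by
    intro c c' h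
    apply g.injective
    funext j
    rw [← hco c j, ← hco c' j, h]
  have hdeg : ∀ c, (P c).degree < d := fun c => Polynomial.degree_sum_fin_lt _
  refine ⟨fun c x => (P c).eval x, ?_⟩
  intro c M hM
  have hroots : ∀ a, a ≠ c → ((P a - P c).roots.toFinset).card ≤ d := by
    intro a hac
    have hne : P a - P c ≠ 0 := sub_ne_zero.2 (fun h => hac (hinj h))
    have h2 : (P a - P c).degree < d := by
      refine lt_of_le_of_lt (Polynomial.degree_sub_le _ _) ?_
      exact max_lt (hdeg a) (hdeg c)
    have h3 : (P a - P c).natDegree < d := by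
      rw [Polynomial.degree_eq_natDegree hne] at h2
      exact_mod_cast h2
    exact (Multiset.toFinset_card_le _).trans ((Polynomial.card_roots' _).trans h3.le)
  have hbad : ((M.filter (fun a => a ≠ c)).biUnion fun a => (P a - P c).roots.toFinset).card
      ≤ t * d := by
    refine (Finset.card_biUnion_le_card_mul _ _ d ?_).trans ?_
    · intro a ha
      exact hroots a (Finset.mem_filter.1 ha).2
    · exact Nat.mul_le_mul_right _ ((Finset.card_filter_le _ _).trans hM)
  have hex : ∃ x : ZMod p, x ∉ (M.filter (fun a => a ≠ c)).biUnion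
      fun a => (P a - P c).roots.toFinset := by
    by_contra hall
    push Not at hall
    have h2 : (univ : Finset (ZMod p)) ⊆ (M.filter (fun a => a ≠ c)).biUnion
      fun a => (P a - P c).roots.toFinset := fun x _ => hall x
    have h3 := Finset.card_le_card h2
    rw [Finset.card_univ, ZMod.card] at h3
    omega
  obtain ⟨x, hx⟩ := hex
  refine ⟨x, fun a ha hac hxa => hx ?_⟩
  rw [Finset.mem_biUnion]
  refine ⟨a, Finset.mem_filter.2 ⟨ha, hac⟩, ?_⟩
  rw [Multiset.mem_toFinset, Polynomial.mem_roots (sub_ne_zero.2 (fun h => hac (hinj h))),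
    Polynomial.IsRoot, Polynomial.eval_sub, sub_eq_zero]
  exact hxa

/-- a colouring with few conflicts modulo small sets of colours can be replaced by one with few
colours -/
theorem reduce {W : Type*} {k N t d p : ℕ} [hp : Fact p.Prime] (hN : N ≤ p ^ d)
    (ht : t * d < p) (C0 : W → Fin N) (T : W → Finset (Fin k)) (M : W → Finset (Fin N))
    (hM : ∀ w, (M w).card ≤ t) :
    ∃ C1 : W → Fin (2 ^ k * (p * p)), ∀ u w, C0 u ≠ C0 w →
      (T u = T w → C0 u ∈ M w ∨ C0 w ∈ M u) → C1 u ≠ C1 w := by
  classical
  obtain ⟨f, hf⟩ := separate N t d p hN ht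
  choose x hx using fun w => hf (C0 w) (M w) (hM w)
  let C2 : W → Finset (Fin k) × (ZMod p × ZMod p) := fun w => (T w, (x w, f (C0 w) (x w)))
  have hcard : Fintype.card (Finset (Fin k) × (ZMod p × ZMod p)) = 2 ^ k * (p * p) := by
    rw [Fintype.card_prod, Fintype.card_prod, ZMod.card, Fintype.card_finset, Fintype.card_fin]
  let e : Finset (Fin k) × (ZMod p × ZMod p) ≃ Fin (2 ^ k * (p * p)) :=
    Fintype.equivFinOfCardEq hcard
  refine ⟨fun w => e (C2 w), ?_⟩
  intro u w hne hTM heq
  have h1 := e.injective heq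
  simp only [C2, Prod.mk.injEq] at h1
  obtain ⟨hT, hxx, hff⟩ := h1
  rcases hTM hT with h2 | h2
  · have h3 := hx w (C0 u) h2 hne
    apply h3
    rw [← hxx] at hff ⊢
    exact hff
  · have h3 := hx u (C0 w) h2 hne.symm
    apply h3
    rw [hff, hxx]

end Pool.Agent.H41.ENL
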