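import Pool.Agent.H41.ENL.Fam
import Pool.Agent.H41.ENL.Poly

/-!
# The linear Erdős–Neumann-Lara inequality for graphs with a local biclique cover
-/

namespace Pool.Agent.H41.ENL

open Finset

/-- `C` is a proper colouring of the digraph of the cover -/
def PropC {V W : Type*} (X Y : W → Set V) {N : ℕ} (C : W → Fin N) : Prop :=
  ∀ u w v, v ∈ X u → v ∈ Y w → C u ≠ C w

theorem pow_cond {q ℓ N : ℕ} (hq : 0 < q) (hN : N < 2 ^ ℓ) :
    ((2 * N + 1) ^ q) ^ 4 * 7 ^ (24 * (q * (ℓ + 1))) < 8 ^ (24 * (q * (ℓ + 1))) := by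
  have hx : 0 < q * (ℓ + 1) := Nat.mul_pos hq (Nat.succ_pos _)
  have h1 : (2 * N + 1) ^ q ≤ 2 ^ (q * (ℓ + 1)) := by
    rw [mul_comm q, pow_mul]
    refine Nat.pow_le_pow_left ?_ _
    rw [pow_succ]
    omega
  have h2 : ((2 * N + 1) ^ q) ^ 4 ≤ 16 ^ (q * (ℓ + 1)) := by
    calc _ ≤ (2 ^ (q * (ℓ + 1))) ^ 4 := Nat.pow_le_pow_left h1 4
      _ = 16 ^ (q * (ℓ + 1)) := by
        rw [← pow_mul, mul_comm _ 4, pow_mul]
        norm_num
  calc ((2 * N + 1) ^ q) ^ 4 * 7 ^ (24 * (q * (ℓ + 1)))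
      ≤ 16 ^ (q * (ℓ + 1)) * (7 ^ 24) ^ (q * (ℓ + 1)) := by
        rw [pow_mul 7]
        exact Nat.mul_le_mul_right _ h2
    _ = (16 * 7 ^ 24) ^ (q * (ℓ + 1)) := (mul_pow _ _ _).symm
    _ < (8 ^ 24) ^ (q * (ℓ + 1)) := Nat.pow_lt_pow_left (by norm_num) hx.ne'
    _ = _ := (pow_mul _ _ _).symm

/-- if `δ(G) ≤ k`, the number of colours of a proper colouring of the digraph of the cover can be
reduced -/
theorem step {V W : Type*} {G : SimpleGraph V} {X Y : W → Set V} {q : ℕ}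
    (h : LBC G X Y q) {k N ℓ : ℕ} (hk : 0 < k) (hq : 0 < q) (hℓ : 0 < ℓ) (hN : N < 2 ^ ℓ)
    (C0 : W → Fin N) (hC0 : PropC X Y C0) (hnot : ¬ DiGt G k) :
    ∃ C1 : W → Fin (2 ^ k * (192 * k * q ^ 2 * (ℓ * (ℓ + 1))) ^ 2), PropC X Y C1 := by
  obtain ⟨T, M, hM, hTM⟩ := core h C0 hC0 (m := 24 * (q * (ℓ + 1)))
    (Nat.mul_pos (by norm_num) (Nat.mul_pos hq (Nat.succ_pos _))) (pow_cond hq hN) hnot
  set t := k * (4 * (24 * (q * (ℓ + 1)))) * q with ht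
  have htpos : t * ℓ ≠ 0 := by
    rw [ht]
    positivity
  obtain ⟨p, hp, hp1, hp2⟩ := Nat.exists_prime_lt_and_le_two_mul (t * ℓ) htpos
  have : Fact p.Prime := ⟨hp⟩
  have hNp : N ≤ p ^ ℓ := hN.le.trans (Nat.pow_le_pow_left hp.two_le ℓ)
  obtain ⟨C1, hC1⟩ := reduce hNp hp1 C0 T M hM
  have hle : 2 ^ k * (p * p) ≤ 2 ^ k * (192 * k * q ^ 2 * (ℓ * (ℓ + 1))) ^ 2 := by
    refine Nat.mul_le_mul_left _ ?_
    rw [sq (192 * k * q ^ 2 * (ℓ * (ℓ + 1)))]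
    have h1 : p ≤ 192 * k * q ^ 2 * (ℓ * (ℓ + 1)) := by
      refine hp2.trans (le_of_eq ?_)
      rw [ht]
      ring
    exact Nat.mul_le_mul h1 h1
  refine ⟨fun w => Fin.castLE hle (C1 w), ?_⟩
  intro u w v hu hw heq
  exact hC1 u w (hC0 u w v hu hw) (fun hT => hTM u w v hu hw hT)
    (Fin.castLE_injective hle heq)

theorem sq_le_pow (n : ℕ) : n ^ 2 ≤ 2 ^ (n + 1) := by
  induction n with
  | zero => norm_num
  | succ n ih =>
    rcases Nat.lt_or_ge n 3 with h | h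
    · interval_cases n <;> norm_num
    · calc (n + 1) ^ 2 ≤ 2 * n ^ 2 := by nlinarith
        _ ≤ 2 * 2 ^ (n + 1) := Nat.mul_le_mul_left _ ih
        _ = 2 ^ (n + 1 + 1) := by ring

theorem pow8_le (n : ℕ) : (n + 1) ^ 8 ≤ 2 ^ 18 * 2 ^ n := by
  have key : ∀ n, (n + 12) ^ 8 ≤ 2 ^ 18 * 2 ^ (n + 11) := by
    intro n
    induction n with
    | zero => norm_num
    | succ n ih =>
      have h1 : (n + 1 + 12) ^ 8 ≤ 2 * (n + 12) ^ 8 := by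
        have h2 : 12 ^ 8 * (n + 1 + 12) ^ 8 ≤ 12 ^ 8 * (2 * (n + 12) ^ 8) := by
          calc 12 ^ 8 * (n + 1 + 12) ^ 8 = (12 * (n + 1 + 12)) ^ 8 := (mul_pow _ _ _).symm
            _ ≤ (13 * (n + 12)) ^ 8 := Nat.pow_le_pow_left (by omega) 8
            _ = 13 ^ 8 * (n + 12) ^ 8 := mul_pow _ _ _
            _ ≤ (12 ^ 8 * 2) * (n + 12) ^ 8 := Nat.mul_le_mul_right _ (by norm_num)
            _ = _ := by ring
        exact Nat.le_of_mul_le_mul_left h2 (by norm_num)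
      calc (n + 1 + 12) ^ 8 ≤ 2 * (n + 12) ^ 8 := h1
        _ ≤ 2 * (2 ^ 18 * 2 ^ (n + 11)) := Nat.mul_le_mul_left _ ih
        _ = 2 ^ 18 * 2 ^ (n + 1 + 11) := by ring
  rcases Nat.lt_or_ge n 11 with h | h
  · interval_cases n <;> norm_num
  · obtain ⟨m, rfl⟩ : ∃ m, n = m + 11 := ⟨n - 11, by omega⟩
    exact key m

theorem num {k q ℓ N : ℕ} (hN : 2 ^ ℓ ≤ 2 * N)
    (h : N ≤ 2 ^ k * (192 * k * q ^ 2 * (ℓ * (ℓ + 1))) ^ 2) : ℓ + 1 ≤ 4 * (k + q + 15) := by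
  have h1 : 2 ^ ℓ ≤ 2 ^ (k + 1) * (192 * k * q ^ 2 * (ℓ + 1) ^ 2) ^ 2 := by
    calc 2 ^ ℓ ≤ 2 * N := hN
      _ ≤ 2 * (2 ^ k * (192 * k * q ^ 2 * (ℓ * (ℓ + 1))) ^ 2) := Nat.mul_le_mul_left _ h
      _ = 2 ^ (k + 1) * (192 * k * q ^ 2 * (ℓ * (ℓ + 1))) ^ 2 := by ring
      _ ≤ _ := by
        refine Nat.mul_le_mul_left _ (Nat.pow_le_pow_left (Nat.mul_le_mul_left _ ?_) 2)
        rw [sq]
        exact Nat.mul_le_mul_right _ (Nat.le_succ _)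
  have h2 : (2 ^ ℓ) ^ 2 ≤ 2 ^ (4 * k + 4 * q + 57) * 2 ^ ℓ := by
    calc (2 ^ ℓ) ^ 2 ≤ (2 ^ (k + 1) * (192 * k * q ^ 2 * (ℓ + 1) ^ 2) ^ 2) ^ 2 :=
          Nat.pow_le_pow_left h1 2
      _ = 2 ^ (2 * k + 2) * (192 ^ 4 * ((k ^ 2) ^ 2 * ((q ^ 2) ^ 4 * (ℓ + 1) ^ 8))) := by ring
      _ ≤ 2 ^ (2 * k + 2) * (2 ^ 31 * ((2 ^ (k + 1)) ^ 2 * ((2 ^ (q + 1)) ^ 4 *
            (2 ^ 18 * 2 ^ ℓ)))) := by
          refine Nat.mul_le_mul_left _ (Nat.mul_le_mul (by norm_num) (Nat.mul_le_mul ?_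
            (Nat.mul_le_mul ?_ (pow8_le ℓ))))
          · exact Nat.pow_le_pow_left (sq_le_pow k) 2
          · exact Nat.pow_le_pow_left (sq_le_pow q) 4
      _ = 2 ^ (4 * k + 4 * q + 57) * 2 ^ ℓ := by ring
  rw [sq] at h2
  have h3 := Nat.le_of_mul_le_mul_right h2 (by positivity)
  have h4 := (Nat.pow_le_pow_iff_right (by norm_num : 1 < 2)).1 h3
  omega

theorem diGt_zero {V : Type*} (G : SimpleGraph V) [hV : Nonempty V] : DiGt G 0 := by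
  classical
  let _ : LinearOrder V := IsWellOrder.linearOrder WellOrderingRel
  refine ⟨fun u v => G.Adj u v ∧ u < v, fun u v h => h.1, ?_, ?_⟩
  · intro u v huv
    rcases lt_or_gt_of_ne huv.ne with h | h
    · exact Or.inl ⟨⟨huv, h⟩, fun h' => h.asymm h'.2⟩
    · exact Or.inr ⟨⟨huv.symm, h⟩, fun h' => h.asymm h'.2⟩
  · intro c
    exact (c hV.some).elim0

/-- minimal proper colouring of the digraph of the cover -/
theorem exists_min {V W : Type*} [Finite W] {G : SimpleGraph V} {X Y : W → Set V} {q : ℕ}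
    (h : LBC G X Y q) : ∃ (N : ℕ) (C0 : W → Fin N), PropC X Y C0 ∧
      ∀ (N' : ℕ) (C : W → Fin N'), PropC X Y C → N ≤ N' := by
  classical
  have hex : ∃ N, ∃ C0 : W → Fin N, PropC X Y C0 := by
    have := Fintype.ofFinite W
    refine ⟨Fintype.card W, Fintype.equivFin W, ?_⟩
    intro u w v hu hw heq
    have := (Fintype.equivFin W).injective heq
    subst this
    exact (h.bic u v hu v hw).ne rfl
  obtain ⟨C0, hC0⟩ := Nat.find_spec hex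
  exact ⟨Nat.find hex, C0, hC0, fun N' C hC => Nat.find_min' hex ⟨C, hC⟩⟩

/-- **Main theorem.** `χ(G) > 4 q 2^q (k+q+15)` implies `δ(G) > k` -/
theorem main {V W : Type*} [Finite W] {G : SimpleGraph V} {X Y : W → Set V} {q : ℕ}
    (h : LBC G X Y q) (hq : 0 < q) (k : ℕ)
    (hχ : ¬ G.Colorable (4 * q * 2 ^ q * (k + q + 15))) : DiGt G k := by
  by_contra hnot
  have hV : Nonempty V := by
    by_contra hemp
    rw [not_nonempty_iff] at hemp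
    exact hχ (SimpleGraph.Colorable.of_isEmpty _)
  rcases Nat.eq_zero_or_pos k with rfl | hk
  · exact hnot (diGt_zero G)
  obtain ⟨N, C0, hC0, hmin⟩ := exists_min h
  have hfin : ∀ ℓ, ℓ + 1 ≤ 4 * (k + q + 15) → N < 2 ^ ℓ → False := by
    intro ℓ h1 h2
    refine hχ ((colorable h hq h2 C0 hC0).mono ?_)
    calc 2 ^ q * (q * (ℓ + 1)) ≤ 2 ^ q * (q * (4 * (k + q + 15))) :=
          Nat.mul_le_mul_left _ (Nat.mul_le_mul_left _ h1)
      _ = _ := by ring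
  rcases Nat.eq_zero_or_pos N with h0 | hNpos
  · exact hfin 0 (by omega) (by rw [h0]; norm_num)
  have hlt : N < 2 ^ (Nat.log 2 N + 1) := Nat.lt_pow_succ_log_self (by norm_num) N
  have hge : 2 ^ (Nat.log 2 N + 1) ≤ 2 * N := by
    rw [pow_succ, mul_comm]
    exact Nat.mul_le_mul_left _ (Nat.pow_log_le_self 2 hNpos.ne')
  obtain ⟨C1, hC1⟩ := step h hk hq (Nat.succ_pos _) hlt C0 hC0 hnot
  exact hfin _ (num hge (hmin _ C1 hC1)) hlt

end Pool.Agent.H41.ENL
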