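import Pool.Agent.H41.ENL.Altern

/-!
# Schrijver graphs
-/

namespace Pool.Agent.H41.ENL

open Finset

/-- no two cyclically consecutive elements -/
def Stable {n : ℕ} (S : Finset (Fin n)) : Prop := ∀ i ∈ S, ∀ j ∈ S, (i.val + 1) % n ≠ j.val

theorem exists_stable {n r : ℕ} {A B : Finset (Fin n)} (h : AltS A B (2 * r)) :
    (∃ S : Finset (Fin n), (S.card = r ∧ Stable S) ∧ S ⊆ A) ∧
      ∃ S : Finset (Fin n), (S.card = r ∧ Stable S) ∧ S ⊆ B := by
  classical
  obtain ⟨g, h1, h2, h3⟩ := h
  have hinj : ∀ i j, i < 2 * r → j < 2 * r → g i = g j → i = j := by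
    intro i j hi hj hij
    rcases lt_trichotomy i j with h | h | h
    · exact absurd hij (h1 i j h hj).ne
    · exact h
    · exact absurd hij.symm (h1 j i h hi).ne
  constructor
  · refine ⟨(range r).image (fun i => g (2 * i)), ⟨?_, ?_⟩, ?_⟩
    · rw [Finset.card_image_of_injOn, Finset.card_range]
      intro i hi j hj hij
      have hi' := Finset.mem_range.1 hi
      have hj' := Finset.mem_range.1 hj
      have := hinj _ _ (by omega) (by omega) hij
      omega
    · intro x hx y hy hxy
      obtain ⟨i, hi, rfl⟩ := Finset.mem_image.1 hx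
      obtain ⟨j, hj, rfl⟩ := Finset.mem_image.1 hy
      have hi' := Finset.mem_range.1 hi
      have hj' := Finset.mem_range.1 hj
      have h4 : (g (2 * i)).val < (g (2 * i + 1)).val := h1 _ _ (by omega) (by omega)
      have h5 := (g (2 * i + 1)).2
      rw [Nat.mod_eq_of_lt (by omega)] at hxy
      rcases Nat.lt_or_ge i j with hij | hij
      · have h6 : (g (2 * i + 1)).val < (g (2 * j)).val := h1 _ _ (by omega) (by omega)
        omega
      · rcases hij.lt_or_eq with hij | hij
        · have h6 : (g (2 * j)).val < (g (2 * i)).val := h1 _ _ (by omega) (by omega)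
          omega
        · subst hij
          omega
    · intro x hx
      obtain ⟨i, hi, rfl⟩ := Finset.mem_image.1 hx
      have hi' := Finset.mem_range.1 hi
      exact h2 _ (by omega) (by omega)
  · refine ⟨(range r).image (fun i => g (2 * i + 1)), ⟨?_, ?_⟩, ?_⟩
    · rw [Finset.card_image_of_injOn, Finset.card_range]
      intro i hi j hj hij
      have hi' := Finset.mem_range.1 hi
      have hj' := Finset.mem_range.1 hj
      have := hinj _ _ (by omega) (by omega) hij
      omega
    · intro x hx y hy hxy
      obtain ⟨i, hi, rfl⟩ := Finset.mem_image.1 hx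
      obtain ⟨j, hj, rfl⟩ := Finset.mem_image.1 hy
      have hi' := Finset.mem_range.1 hi
      have hj' := Finset.mem_range.1 hj
      have h4 : (g (2 * j)).val < (g (2 * j + 1)).val := h1 _ _ (by omega) (by omega)
      have h5 := (g (2 * i + 1)).2
      rcases Nat.lt_or_ge ((g (2 * i + 1)).val + 1) n with hn | hn
      · rw [Nat.mod_eq_of_lt hn] at hxy
        rcases Nat.lt_or_ge i j with hij | hij
        · have h6 : (g (2 * i + 1)).val < (g (2 * j)).val := h1 _ _ (by omega) (by omega)
          omega
        · rcases hij.lt_or_eq with hij | hij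
          · have h6 : (g (2 * j + 1)).val < (g (2 * i + 1)).val := h1 _ _ (by omega) (by omega)
            omega
          · subst hij
            omega
      · have h6 : (g (2 * i + 1)).val + 1 = n := by omega
        rw [h6, Nat.mod_self] at hxy
        omega
    · intro x hx
      obtain ⟨i, hi, rfl⟩ := Finset.mem_image.1 hx
      have hi' := Finset.mem_range.1 hi
      exact h3 _ (by omega) (by omega)

/-- the sets `S v` have `r` elements: Kneser's colouring -/
theorem kneser_colorable {V : Type*} {n r N : ℕ} (S : V → Finset (Fin n)) (hr : 0 < r)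
    (hS : ∀ v, (S v).card = r) (hN : n + 2 ≤ N + 2 * r) (hN2 : 2 ≤ N) :
    (kneser S).Colorable N := by
  classical
  have hne : ∀ v, (S v).Nonempty := fun v => Finset.card_pos.1 (by rw [hS v]; exact hr)
  let mn : V → ℕ := fun v => ((S v).min' (hne v)).val
  refine ⟨SimpleGraph.Coloring.mk (fun v => (⟨min (mn v) (N - 1), by omega⟩ : Fin N)) ?_⟩
  intro u v huv heq
  rw [kneser, SimpleGraph.fromRel_adj] at huv
  have hdis : Disjoint (S u) (S v) := by
    rcases huv.2 with h | h
    · exact h
    · exact h.symm
  have h1 : min (mn u) (N - 1) = min (mn v) (N - 1) := congrArg Fin.val heq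
  rcases Nat.lt_or_ge (mn u) (N - 1) with h2 | h2
  · have h3 : mn u = mn v := by omega
    have h4 : (S u).min' (hne u) = (S v).min' (hne v) := Fin.ext h3
    refine Finset.disjoint_left.1 hdis ((S u).min'_mem (hne u)) ?_
    rw [h4]
    exact (S v).min'_mem (hne v)
  · have h3 : N - 1 ≤ mn v := by omega
    have h4 : S u ∪ S v ⊆ univ.filter (fun x : Fin n => N - 1 ≤ x.val) := by
      intro x hx
      refine Finset.mem_filter.2 ⟨Finset.mem_univ _, ?_⟩
      rcases Finset.mem_union.1 hx with h | h
      · have h5 : ((S u).min' (hne u)).val ≤ x.val := (S u).min'_le x h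
        exact h2.trans h5
      · have h5 : ((S v).min' (hne v)).val ≤ x.val := (S v).min'_le x h
        exact h3.trans h5
    have h5 := Finset.card_le_card h4
    rw [Finset.card_union_of_disjoint hdis, hS u, hS v] at h5
    have h6 : (univ.filter (fun x : Fin n => N - 1 ≤ x.val)).card ≤ n - (N - 1) := by
      have h7 : (univ.filter (fun x : Fin n => N - 1 ≤ x.val)).card
          = ((univ.filter (fun x : Fin n => N - 1 ≤ x.val)).image Fin.val).card :=
        (Finset.card_image_of_injective _ Fin.val_injective).symm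
      rw [h7]
      have h8 : (Finset.Ico (N - 1) n).card = n - (N - 1) := Nat.card_Ico _ _
      rw [← h8]
      refine Finset.card_le_card ?_
      intro y hy
      obtain ⟨x, hx, rfl⟩ := Finset.mem_image.1 hy
      exact Finset.mem_Ico.2 ⟨(Finset.mem_filter.1 hx).2, x.2⟩
    omega

/-- the Schrijver graph -/
def schrijver (n r : ℕ) : SimpleGraph {S : Finset (Fin n) // S.card = r ∧ Stable S} :=
  kneser (fun S => S.1)

theorem schrijver_main {n r k l : ℕ} (hr : 0 < r) (hl : 0 < l) (hχ : n + 2 ≤ 2 ^ l + 2 * r)
    (hn : 192 * k * l + 2 * r ≤ n) : DiGt (schrijver n r) k := by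
  have h2l : 2 ≤ 2 ^ l := by
    calc 2 = 2 ^ 1 := by norm_num
      _ ≤ 2 ^ l := Nat.pow_le_pow_right (by norm_num) hl
  refine kneser_main (fun S : {S : Finset (Fin n) // S.card = r ∧ Stable S} => S.1)
    (fun S => Finset.card_pos.1 (by rw [S.2.1]; exact hr)) (a := 2 * r) (by omega) hl ?_ ?_ hn
  · intro A B _ hAB
    obtain ⟨⟨S, hS, hSA⟩, ⟨T, hT, hTB⟩⟩ := exists_stable hAB
    exact ⟨⟨⟨S, hS⟩, hSA⟩, ⟨⟨T, hT⟩, hTB⟩⟩
  · exact kneser_colorable _ hr (fun S => S.2.1) hχ h2l

end Pool.Agent.H41.ENL
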