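import Pool.Agent.H53.ENL.Matrix

/-!
# A tournament in which every two large disjoint sets span a directed cycle of length four
-/

namespace Pool.Agent.H41.ENL

open Finset

/-- the tournament given by a 0/1 matrix -/
def tourM {L : ℕ} (M : Fin L × Fin L → Bool) (a b : Fin L) : Bool :=
  if a < b then M (a, b) else !(M (b, a))

/-- `a → b → a' → b' → a` -/
def Cyc4 {Λ : Type*} (T : Λ → Λ → Bool) (a b a' b' : Λ) : Prop :=
  T a b = true ∧ T b a' = true ∧ T a' b' = true ∧ T b' a = true

theorem exists_emb {L m : ℕ} {S : Finset (Fin L)} (h : 2 * m ≤ S.card) :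
    ∃ e : Fin m × Bool ↪ Fin L, ∀ x, e x ∈ S := by
  have h1 : Fintype.card (Fin m × Bool) ≤ Fintype.card S := by
    rw [Fintype.card_prod, Fintype.card_fin, Fintype.card_bool, Fintype.card_coe]
    omega
  obtain ⟨f⟩ := Function.Embedding.nonempty_of_card_le h1
  exact ⟨f.trans (Function.Embedding.subtype _), fun x => (f x).2⟩

theorem exists_median {L m : ℕ} (hm : 0 < m) {S : Finset (Fin L)} (h : 4 * m ≤ S.card) :
    ∃ x ∈ S, 2 * m ≤ (S.filter (fun s => s ≤ x)).card ∧
      2 * m ≤ (S.filter (fun s => x < s)).card := by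
  classical
  have hc : 2 * m - 1 < S.card := by omega
  let e := S.orderIsoOfFin rfl
  let x : S := e ⟨2 * m - 1, hc⟩
  refine ⟨x.1, x.2, ?_, ?_⟩
  · have h1 : (Finset.univ.filter (fun i : Fin S.card => i ≤ ⟨2 * m - 1, hc⟩)).card = 2 * m := by
      have h2 : (Finset.univ.filter (fun i : Fin S.card => i ≤ ⟨2 * m - 1, hc⟩)) =
        Finset.Iic ⟨2 * m - 1, hc⟩ := by ext i; simp
      rw [h2, Fin.card_Iic]
      simp only
      omega
    rw [← h1]
    refine Finset.card_le_card_of_injOn (fun i => (e i).1) ?_ ?_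
    · intro i hi
      simp only [Finset.coe_filter, Finset.mem_univ, true_and, Set.mem_ofPred_eq] at hi ⊢
      exact ⟨(e i).2, by exact_mod_cast e.monotone hi⟩
    · intro i _ j _ hij
      exact e.injective (Subtype.ext hij)
  · have h1 : 2 * m ≤ (Finset.univ.filter (fun i : Fin S.card => ⟨2 * m - 1, hc⟩ < i)).card := by
      have h2 : (Finset.univ.filter (fun i : Fin S.card => ⟨2 * m - 1, hc⟩ < i)) =
        Finset.Ioi ⟨2 * m - 1, hc⟩ := by ext i; simp
      rw [h2, Fin.card_Ioi]
      simp only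
      omega
    refine h1.trans ?_
    refine Finset.card_le_card_of_injOn (fun i => (e i).1) ?_ ?_
    · intro i hi
      simp only [Finset.coe_filter, Finset.mem_univ, true_and, Set.mem_ofPred_eq] at hi ⊢
      exact ⟨(e i).2, by exact_mod_cast e.strictMono hi⟩
    · intro i _ j _ hij
      exact e.injective (Subtype.ext hij)

theorem cyc_of_lt {L m : ℕ} {M : Fin L × Fin L → Bool}
    (hM : ∀ a b : Fin m × Bool ↪ Fin L,
      ∃ i j : Fin m, M (a (i, false), b (j, false)) = M (a (i, true), b (j, true)) ∧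
        M (a (i, false), b (j, true)) = M (a (i, true), b (j, false)) ∧
        M (a (i, false), b (j, false)) ≠ M (a (i, false), b (j, true)))
    {S T : Finset (Fin L)} (hS : 2 * m ≤ S.card) (hT : 2 * m ≤ T.card)
    (hlt : ∀ s ∈ S, ∀ t ∈ T, s < t) :
    ∃ a ∈ S, ∃ a' ∈ S, ∃ b ∈ T, ∃ b' ∈ T, Cyc4 (tourM M) a b a' b' := by
  obtain ⟨e, he⟩ := exists_emb hS
  obtain ⟨f, hf⟩ := exists_emb hT
  obtain ⟨i, j, h1, h2, h3⟩ := hM e f
  have l00 := hlt _ (he (i, false)) _ (hf (j, false))
  have l01 := hlt _ (he (i, false)) _ (hf (j, true))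
  have l10 := hlt _ (he (i, true)) _ (hf (j, false))
  have l11 := hlt _ (he (i, true)) _ (hf (j, true))
  rcases hx : M (e (i, false), f (j, false)) with _ | _
  · -- false on the diagonal
    have hy : M (e (i, false), f (j, true)) = true := by
      rw [hx] at h3
      rcases hz : M (e (i, false), f (j, true)) with _ | _
      · exact absurd hz.symm h3
      · rfl
    refine ⟨_, he (i, false), _, he (i, true), _, hf (j, true), _, hf (j, false), ?_, ?_, ?_, ?_⟩
    · rw [tourM, if_pos l01, hy]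
    · rw [tourM, if_neg l11.asymm, ← h1, hx]; rfl
    · rw [tourM, if_pos l10, ← h2, hy]
    · rw [tourM, if_neg l00.asymm, hx]; rfl
  · have hy : M (e (i, false), f (j, true)) = false := by
      rw [hx] at h3
      rcases hz : M (e (i, false), f (j, true)) with _ | _
      · rfl
      · exact absurd hz.symm h3
    refine ⟨_, he (i, false), _, he (i, true), _, hf (j, false), _, hf (j, true), ?_, ?_, ?_, ?_⟩
    · rw [tourM, if_pos l00, hx]
    · rw [tourM, if_neg l10.asymm, ← h2, hy]; rfl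
    · rw [tourM, if_pos l11, ← h1, hx]
    · rw [tourM, if_neg l01.asymm, hy]; rfl

theorem exists_tour_fin (L m : ℕ) (hm : 0 < m) (h : L ^ 4 * 7 ^ m < 8 ^ m) :
    ∃ T : Fin L → Fin L → Bool, (∀ a b, a ≠ b → T a b = !(T b a)) ∧
      ∀ S S' : Finset (Fin L), Disjoint S S' → 4 * m ≤ S.card → 4 * m ≤ S'.card →
        ∃ a ∈ S, ∃ a' ∈ S, ∃ b ∈ S', ∃ b' ∈ S', Cyc4 T a b a' b' := by
  classical
  obtain ⟨M, hM⟩ := Pool.Agent.H53.ENL.exists_matrix L m hm h
  refine ⟨tourM M, ?_, ?_⟩
  · intro a b hab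
    rcases lt_or_gt_of_ne hab with h1 | h1
    · rw [tourM, tourM, if_pos h1, if_neg h1.asymm, Bool.not_not]
    · rw [tourM, tourM, if_pos h1, if_neg h1.asymm]
  · intro S S' hdis hS hS'
    obtain ⟨x, hx, h1, h2⟩ := exists_median hm hS
    have hxS' : x ∉ S' := Finset.disjoint_left.1 hdis hx
    have hsplit : (S'.filter (fun s => x < s)).card + (S'.filter (fun s => s < x)).card
        = S'.card := by
      rw [← Finset.card_filter_add_card_filter_not (s := S') (fun s => x < s)]
      congr 2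
      refine Finset.filter_congr fun s hs => ?_
      rw [not_lt]
      constructor
      · exact le_of_lt
      · intro h
        exact lt_of_le_of_ne h (fun h' => hxS' (h' ▸ hs))
    rcases le_or_gt (2 * m) (S'.filter (fun s => x < s)).card with h3 | h3
    · obtain ⟨a, ha, a', ha', b, hb, b', hb', hc⟩ := cyc_of_lt hM h1 h3
        (by
          intro s hs t ht
          exact lt_of_le_of_lt (Finset.mem_filter.1 hs).2 (Finset.mem_filter.1 ht).2)
      exact ⟨a, (Finset.mem_filter.1 ha).1, a', (Finset.mem_filter.1 ha').1,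
        b, (Finset.mem_filter.1 hb).1, b', (Finset.mem_filter.1 hb').1, hc⟩
    · have h4 : 2 * m ≤ (S'.filter (fun s => s < x)).card := by omega
      obtain ⟨a, ha, a', ha', b, hb, b', hb', hc⟩ := cyc_of_lt hM h4 h2
        (by
          intro s hs t ht
          exact lt_trans (Finset.mem_filter.1 hs).2 (Finset.mem_filter.1 ht).2)
      exact ⟨b, (Finset.mem_filter.1 hb).1, b', (Finset.mem_filter.1 hb').1,
        a', (Finset.mem_filter.1 ha').1, a, (Finset.mem_filter.1 ha).1,
        hc.2.1, hc.2.2.1, hc.2.2.2, hc.1⟩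

/-- the tournament lemma for any finite set of labels -/
theorem exists_tour (Λ : Type*) [Fintype Λ] (m : ℕ) (hm : 0 < m)
    (h : Fintype.card Λ ^ 4 * 7 ^ m < 8 ^ m) :
    ∃ T : Λ → Λ → Bool, (∀ a b, a ≠ b → T a b = !(T b a)) ∧
      ∀ S S' : Finset Λ, Disjoint S S' → 4 * m ≤ S.card → 4 * m ≤ S'.card →
        ∃ a ∈ S, ∃ a' ∈ S, ∃ b ∈ S', ∃ b' ∈ S', Cyc4 T a b a' b' := by
  classical
  obtain ⟨T, h1, h2⟩ := exists_tour_fin (Fintype.card Λ) m hm h
  let e := Fintype.equivFin Λ
  refine ⟨fun a b => T (e a) (e b), fun a b hab => h1 _ _ (fun h => hab (e.injective h)), ?_⟩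
  intro S S' hdis hS hS'
  obtain ⟨a, ha, a', ha', b, hb, b', hb', hc⟩ := h2 (S.map e.toEmbedding) (S'.map e.toEmbedding)
    (by rwa [Finset.disjoint_map]) (by rwa [Finset.card_map]) (by rwa [Finset.card_map])
  simp only [Finset.mem_map, Equiv.coe_toEmbedding] at ha ha' hb hb'
  obtain ⟨x, hx, rfl⟩ := ha
  obtain ⟨x', hx', rfl⟩ := ha'
  obtain ⟨y, hy, rfl⟩ := hb
  obtain ⟨y', hy', rfl⟩ := hb'
  exact ⟨x, hx, x', hx', y, hy, y', hy', hc⟩

end Pool.Agent.H41.ENL
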